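import Pool.Agent.R626.QM.Dec

/-!
Finite automata, locally testable languages, and the decision procedure.
-/

set_option autoImplicit false
set_option linter.unusedSectionVars false

namespace Pool.Agent.R626.QM

open Encodable Pool.Agent.Helper446 Pool.Agent.Helper446.Defs Pool.Agent.Helper446.Oracle
open Pool.Agent.Y545.HM
open Pool.Agent.R626.VZ (dp_of_eq dp_all_mem dp_imp dp_iff)

/-- A finite automaton over `Fin m`: a finite list of transitions `(q, a, r)` (from state `q` to
state `r` reading `a`), a finite list of initial states and a finite list of accepting states. -/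
abbrev Aut (m : ℕ) := List (ℕ × Fin m × ℕ) × List ℕ × List ℕ

/-- `Run T q w r`: the word `w` can be read from state `q` to state `r` with transitions in `T`. -/
def Run {m : ℕ} (T : List (ℕ × Fin m × ℕ)) : ℕ → List (Fin m) → ℕ → Prop
  | q, [], r => q = r
  | q, a :: w, r => ∃ s, (q, a, s) ∈ T ∧ Run T s w r

/-- The language of the automaton: the words labelling a run from an initial state to an accepting
state. -/
def autLang {m : ℕ} (A : Aut m) : Set (List (Fin m)) :=
  {w | ∃ q ∈ A.2.1, ∃ r ∈ A.2.2, Run A.1 q w r}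

/-- A language is locally testable if for some `k ≥ 1`, membership of the words of length at least
`k` depends only on the prefix of length `k - 1`, the suffix of length `k - 1` and the set of
factors of length `k`. -/
def LocallyTestable {m : ℕ} (L : Set (List (Fin m))) : Prop :=
  ∃ k : ℕ, 1 ≤ k ∧ ∀ w w' : List (Fin m), k ≤ w.length → k ≤ w'.length →
    w.take (k - 1) = w'.take (k - 1) →
    w.drop (w.length - (k - 1)) = w'.drop (w'.length - (k - 1)) →
    (∀ v : List (Fin m), v.length = k → (v <:+: w ↔ v <:+: w')) → (w ∈ L ↔ w' ∈ L)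

section

variable {m : ℕ}

/-- one step -/
def stp (T : List (ℕ × Fin m × ℕ)) (S : List ℕ) (a : Fin m) : List ℕ :=
  T.foldl (fun acc t => if t.1 ∈ S ∧ t.2.1 = a then t.2.2 :: acc else acc) []

theorem mem_stp_aux (T : List (ℕ × Fin m × ℕ)) (S : List ℕ) (a : Fin m) (acc : List ℕ) (r : ℕ) :
    r ∈ T.foldl (fun acc t => if t.1 ∈ S ∧ t.2.1 = a then t.2.2 :: acc else acc) acc ↔
      r ∈ acc ∨ ∃ q ∈ S, (q, a, r) ∈ T := by
  induction T generalizing acc with
  | nil => simp
  | cons t T ih =>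
    rw [List.foldl_cons, ih]
    obtain ⟨q, b, s⟩ := t
    by_cases h : q ∈ S ∧ b = a
    · rw [if_pos h]
      obtain ⟨h1, rfl⟩ := h
      constructor
      · rintro (h2 | ⟨q', h2, h3⟩)
        · rcases List.mem_cons.1 h2 with rfl | h2
          · exact Or.inr ⟨q, h1, List.mem_cons_self⟩
          · exact Or.inl h2
        · exact Or.inr ⟨q', h2, List.mem_cons_of_mem _ h3⟩
      · rintro (h2 | ⟨q', h2, h3⟩)
        · exact Or.inl (List.mem_cons_of_mem _ h2)
        · rcases List.mem_cons.1 h3 with h4 | h4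
          · have : r = s := congrArg (fun p => p.2.2) h4
            rw [this]
            exact Or.inl List.mem_cons_self
          · exact Or.inr ⟨q', h2, h4⟩
    · rw [if_neg h]
      constructor
      · rintro (h2 | ⟨q', h2, h3⟩)
        · exact Or.inl h2
        · exact Or.inr ⟨q', h2, List.mem_cons_of_mem _ h3⟩
      · rintro (h2 | ⟨q', h2, h3⟩)
        · exact Or.inl h2
        · rcases List.mem_cons.1 h3 with h4 | h4
          · refine absurd ?_ h
            simp only [Prod.mk.injEq] at h4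
            exact ⟨h4.1 ▸ h2, h4.2.1.symm⟩
          · exact Or.inr ⟨q', h2, h4⟩

theorem mem_stp {T : List (ℕ × Fin m × ℕ)} {S : List ℕ} {a : Fin m} {r : ℕ} :
    r ∈ stp T S a ↔ ∃ q ∈ S, (q, a, r) ∈ T := by
  unfold stp
  rw [mem_stp_aux]
  simp

/-- the states reached -/
def rns (T : List (ℕ × Fin m × ℕ)) (S : List ℕ) (w : List (Fin m)) : List ℕ := w.foldl (stp T) S

theorem mem_rns {T : List (ℕ × Fin m × ℕ)} {S : List ℕ} {w : List (Fin m)} {r : ℕ} :
    r ∈ rns T S w ↔ ∃ q ∈ S, Run T q w r := by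
  induction w generalizing S with
  | nil => simp [rns, Run]
  | cons a w ih =>
    have h : rns T S (a :: w) = rns T (stp T S a) w := rfl
    rw [h, ih]
    constructor
    · rintro ⟨q, h1, h2⟩
      obtain ⟨q', h3, h4⟩ := mem_stp.1 h1
      exact ⟨q', h3, q, h4, h2⟩
    · rintro ⟨q, h1, s, h2, h3⟩
      exact ⟨s, mem_stp.2 ⟨q, h1, h2⟩, h3⟩

theorem rns_append (T : List (ℕ × Fin m × ℕ)) (S : List ℕ) (w : List (Fin m)) (a : Fin m) :
    rns T S (w ++ [a]) = stp T (rns T S w) a := by
  unfold rns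
  rw [List.foldl_append]
  rfl

theorem mem_autLang {A : Aut m} {w : List (Fin m)} :
    w ∈ autLang A ↔ ∃ r ∈ A.2.2, r ∈ rns A.1 A.2.1 w := by
  constructor
  · rintro ⟨q, h1, r, h2, h3⟩
    exact ⟨r, h2, mem_rns.2 ⟨q, h1, h3⟩⟩
  · rintro ⟨r, h1, h2⟩
    obtain ⟨q, h3, h4⟩ := mem_rns.1 h2
    exact ⟨q, h3, r, h1, h4⟩

/-- same states -/
def sst (A : Aut m) (w w' : List (Fin m)) : Prop :=
  (∀ q ∈ rns A.1 A.2.1 w, q ∈ rns A.1 A.2.1 w') ∧ ∀ q ∈ rns A.1 A.2.1 w', q ∈ rns A.1 A.2.1 w

theorem sst.iff {A : Aut m} {w w' : List (Fin m)} (h : sst A w w') (q : ℕ) :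
    q ∈ rns A.1 A.2.1 w ↔ q ∈ rns A.1 A.2.1 w' := ⟨h.1 q, h.2 q⟩

theorem sst_of_iff {A : Aut m} {w w' : List (Fin m)}
    (h : ∀ q, q ∈ rns A.1 A.2.1 w ↔ q ∈ rns A.1 A.2.1 w') : sst A w w' :=
  ⟨fun q => (h q).1, fun q => (h q).2⟩

theorem sst.trans {A : Aut m} {w w' w'' : List (Fin m)} (h : sst A w w') (h' : sst A w' w'') :
    sst A w w'' := sst_of_iff fun q => (h.iff q).trans (h'.iff q)

theorem sst.app {A : Aut m} {w w' : List (Fin m)} (h : sst A w w') (a : Fin m) :
    sst A (w ++ [a]) (w' ++ [a]) := by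
  apply sst_of_iff
  intro q
  rw [rns_append, rns_append, mem_stp, mem_stp]
  exact exists_congr fun p => and_congr (h.iff p) Iff.rfl

theorem sst.lang {A : Aut m} {w w' : List (Fin m)} (h : sst A w w') :
    w ∈ autLang A ↔ w' ∈ autLang A := by
  rw [mem_autLang, mem_autLang]
  exact exists_congr fun p => and_congr Iff.rfl (h.iff p)

theorem eqv.symm {k : ℕ} {z w : List (Fin m)} (h : eqv k z w) : eqv k w z := by
  rcases h with rfl | ⟨h1, h2, h3, h4, h5, h6⟩
  · exact Or.inl rfl
  · exact Or.inr ⟨h2, h1, h3.symm, h4.symm, h6, h5⟩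

theorem eqv.trans {k : ℕ} {x z w : List (Fin m)} (h : eqv k x z) (h' : eqv k z w) :
    eqv k x w := by
  rcases h with rfl | ⟨h1, h2, h3, h4, h5, h6⟩
  · exact h'
  · rcases h' with rfl | ⟨g1, g2, g3, g4, g5, g6⟩
    · exact Or.inr ⟨h1, h2, h3, h4, h5, h6⟩
    · exact Or.inr ⟨h1, g2, h3.trans g3, h4.trans g4, fun v hv => g5 v (h5 v hv),
        fun v hv => h6 v (g6 v hv)⟩

theorem sfx_app {k : ℕ} {z : List (Fin m)} (hk : k ≤ z.length) (a : Fin m) :
    (z ++ [a]).drop ((z ++ [a]).length - k) = (z.drop (z.length - k) ++ [a]).drop 1 := by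
  have h1 : (z ++ [a]).length - k = 1 + (z.length - k) := by
    rw [List.length_append, List.length_singleton]
    omega
  rw [h1, add_comm 1, ← List.drop_drop, List.drop_append_of_le_length (by omega)]

theorem mem_fac_app {k : ℕ} {z : List (Fin m)} (hk : k ≤ z.length) (a : Fin m)
    {v : List (Fin m)} : v ∈ fac k (z ++ [a]) ↔
      v ∈ fac k z ∨ v = (z ++ [a]).drop ((z ++ [a]).length - k) := by
  have hl : (z ++ [a]).length = z.length + 1 := by simp
  rw [mem_fac, mem_fac]
  constructor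
  · rintro ⟨i, h1, rfl⟩
    by_cases hi : i + k ≤ z.length
    · left
      refine ⟨i, hi, ?_⟩
      rw [List.drop_append_of_le_length (by omega), List.take_append_of_le_length]
      rw [List.length_drop]
      omega
    · right
      have : i = (z ++ [a]).length - k := by omega
      rw [← this, List.take_of_length_le]
      rw [List.length_drop]
      omega
  · rintro (⟨i, h1, rfl⟩ | rfl)
    · refine ⟨i, by omega, ?_⟩
      rw [List.drop_append_of_le_length (by omega), List.take_append_of_le_length]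
      rw [List.length_drop]
      omega
    · refine ⟨(z ++ [a]).length - k, by omega, ?_⟩
      rw [List.take_of_length_le]
      rw [List.length_drop]
      omega

theorem eqv.app {k : ℕ} {z w : List (Fin m)} (h : eqv k z w) (a : Fin m) :
    eqv k (z ++ [a]) (w ++ [a]) := by
  rcases h with rfl | ⟨h1, h2, h3, h4, h5, h6⟩
  · exact Or.inl rfl
  · have e := sfx_app h1 a
    have e' := sfx_app h2 a
    have e2 : (z ++ [a]).drop ((z ++ [a]).length - k) = (w ++ [a]).drop ((w ++ [a]).length - k) := by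
      rw [e, e', h4]
    refine Or.inr ⟨by rw [List.length_append]; omega, by rw [List.length_append]; omega, ?_, e2,
      fun v hv => ?_, fun v hv => ?_⟩
    · rw [List.take_append_of_le_length h1, List.take_append_of_le_length h2, h3]
    · rw [mem_fac_app h1] at hv
      rw [mem_fac_app h2, ← e2]
      exact hv.imp (h5 v) id
    · rw [mem_fac_app h2, ← e2] at hv
      rw [mem_fac_app h1]
      exact hv.imp (h6 v) id

theorem mem_fac_iff {k : ℕ} {v w : List (Fin m)} (hv : v.length = k) :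
    v ∈ fac k w ↔ v <:+: w := by
  rw [mem_fac]
  constructor
  · rintro ⟨i, -, rfl⟩
    exact (List.take_prefix _ _).isInfix.trans (List.drop_suffix _ _).isInfix
  · rintro ⟨s, t, rfl⟩
    refine ⟨s.length, by simp [List.length_append, hv], ?_⟩
    rw [List.append_assoc, List.drop_left, ← hv, List.take_left]

theorem eqv.lt {k : ℕ} {L : Set (List (Fin m))}
    (hL : ∀ w w' : List (Fin m), k ≤ w.length → k ≤ w'.length →
    w.take (k - 1) = w'.take (k - 1) →
    w.drop (w.length - (k - 1)) = w'.drop (w'.length - (k - 1)) →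
    (∀ v : List (Fin m), v.length = k → (v <:+: w ↔ v <:+: w')) → (w ∈ L ↔ w' ∈ L))
    (hk : 1 ≤ k) {z w : List (Fin m)} (h : eqv k z w) : z ∈ L ↔ w ∈ L := by
  rcases h with rfl | ⟨h1, h2, h3, h4, h5, h6⟩
  · exact Iff.rfl
  · refine hL z w h1 h2 ?_ ?_ fun v hv => ?_
    · have := congrArg (List.take (k - 1)) h3
      rwa [List.take_take, List.take_take, min_eq_left (by omega)] at this
    · have := congrArg (List.drop 1) h4
      rw [List.drop_drop, List.drop_drop] at this
      rwa [show z.length - k + 1 = z.length - (k - 1) by omega,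
        show w.length - k + 1 = w.length - (k - 1) by omega] at this
    · rw [← mem_fac_iff hv, ← mem_fac_iff hv]
      exact ⟨h5 v, h6 v⟩

/-- finite index -/
theorem finite_index (A : Aut m) (k : ℕ) : ∃ W : List (List (Fin m)), ∀ w, ∃ w' ∈ W,
    eqv k w w' ∧ sst A w w' := by
  classical
  let dat : List (Fin m) → List (Fin m) × List (Fin m) × Finset (List (Fin m)) × Finset ℕ :=
    fun w => (w.take k, w.drop (w.length - k), (fac k w).toFinset, (rns A.1 A.2.1 w).toFinset)
  have hfin1 : {l : List (Fin m) | l.length ≤ k}.Finite := List.finite_length_le _ _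
  let U : Finset ℕ := A.2.1.toFinset ∪ (A.1.map fun t => t.2.2).toFinset
  have hfin2 : ({l : List (Fin m) | l.length ≤ k} ×ˢ ({l : List (Fin m) | l.length ≤ k} ×ˢ
      ((hfin1.toFinset.powerset : Set (Finset (List (Fin m)))) ×ˢ
        (U.powerset : Set (Finset ℕ))))).Finite :=
    hfin1.prod (hfin1.prod ((Finset.finite_toSet _).prod (Finset.finite_toSet _)))
  have hfin : (Set.range dat).Finite := by
    refine hfin2.subset ?_
    rintro _ ⟨w, rfl⟩
    refine ⟨?_, ?_, ?_, ?_⟩
    · show (w.take k).length ≤ k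
      rw [List.length_take]
      omega
    · show (w.drop (w.length - k)).length ≤ k
      rw [List.length_drop]
      omega
    · rw [Finset.mem_coe, Finset.mem_powerset]
      intro v hv
      rw [Set.Finite.mem_toFinset]
      show v.length ≤ k
      obtain ⟨i, -, rfl⟩ := mem_fac.1 (List.mem_toFinset.1 hv)
      rw [List.length_take]
      omega
    · rw [Finset.mem_coe, Finset.mem_powerset]
      intro r hr
      rw [List.mem_toFinset] at hr
      rw [Finset.mem_union, List.mem_toFinset, List.mem_toFinset]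
      rcases List.eq_nil_or_concat w with rfl | ⟨u, a, rfl⟩
      · exact Or.inl hr
      · rw [List.concat_eq_append, rns_append, mem_stp] at hr
        obtain ⟨q, -, h⟩ := hr
        exact Or.inr (List.mem_map.2 ⟨_, h, rfl⟩)
  have hrep : ∀ d : hfin.toFinset, ∃ w, dat w = d := fun d => by
    have := hfin.mem_toFinset.1 d.2
    exact this
  choose rep hrep using hrep
  refine ⟨(hfin.toFinset.attach.toList).map rep, fun w => ?_⟩
  have hw : dat w ∈ hfin.toFinset := hfin.mem_toFinset.2 ⟨w, rfl⟩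
  refine ⟨rep ⟨dat w, hw⟩, List.mem_map.2 ⟨⟨dat w, hw⟩, by simp, rfl⟩, ?_⟩
  have h1 := (hrep ⟨dat w, hw⟩).symm
  obtain ⟨w', hw'⟩ : ∃ w', w' = rep ⟨dat w, hw⟩ := ⟨_, rfl⟩
  rw [← hw'] at h1 ⊢
  simp only [dat, Prod.mk.injEq] at h1
  obtain ⟨e1, e2, e3, e4⟩ := h1
  constructor
  · by_cases hk : k ≤ w.length
    · have hk' : k ≤ w'.length := by
        have := congrArg List.length e1
        rw [List.length_take, List.length_take] at this
        omega
      refine Or.inr ⟨hk, hk', e1, e2, fun v hv => ?_, fun v hv => ?_⟩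
      · rwa [← List.mem_toFinset, ← e3, List.mem_toFinset]
      · rwa [← List.mem_toFinset, e3, List.mem_toFinset]
    · left
      have hk' : ¬ k ≤ w'.length := by
        have := congrArg List.length e1
        rw [List.length_take, List.length_take] at this
        omega
      rwa [List.take_of_length_le (by omega), List.take_of_length_le (by omega)] at e1
  · apply sst_of_iff
    intro q
    rw [← List.mem_toFinset, e4, List.mem_toFinset]

/-! ### computability -/

variable {α : Type*} [Primcodable α] {O : Set ℕ}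

theorem computable_stp {T : α → List (ℕ × Fin m × ℕ)} {S : α → List ℕ} {a : α → Fin m}
    (hT : Computable T) (hS : Computable S) (ha : Computable a) :
    Computable fun x => stp (T x) (S x) (a x) := by
  unfold stp
  refine RE.list_foldl (h := fun (x : α) (y : List ℕ × (ℕ × Fin m × ℕ)) =>
    if y.2.1 ∈ S x ∧ y.2.2.1 = a x then y.2.2.2 :: y.1 else y.1) hT (Computable.const []) ?_
  have h1 : ComputablePred fun p : α × (List ℕ × (ℕ × Fin m × ℕ)) =>
      p.2.2.1 ∈ S p.1 ∧ p.2.2.2.1 = a p.1 := by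
    have h2 : DP ∅ fun p : α × (List ℕ × (ℕ × Fin m × ℕ)) =>
        p.2.2.1 ∈ S p.1 ∧ p.2.2.2.1 = a p.1 :=
      DP.and (dp_mem (by fun_prop) (by fun_prop)) (dp_eq (by fun_prop) (by fun_prop))
    exact RE.cp_of_re (re_of_empty h2.1) (re_of_empty h2.2)
  exact RE.cite h1 (by fun_prop) (by fun_prop)

theorem computable_rns {T : α → List (ℕ × Fin m × ℕ)} {S : α → List ℕ} {w : α → List (Fin m)}
    (hT : Computable T) (hS : Computable S) (hw : Computable w) :
    Computable fun x => rns (T x) (S x) (w x) := by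
  unfold rns
  refine RE.list_foldl (h := fun (x : α) (y : List ℕ × Fin m) => stp (T x) y.1 y.2) hw hS ?_
  exact computable_stp (by fun_prop) (by fun_prop) (by fun_prop)

theorem dp_lang {A : α → Aut m} {w : α → List (Fin m)} (hA : Computable A) (hw : Computable w) :
    DP O fun x => w x ∈ autLang (A x) := by
  have h : DP O fun x => ∃ r ∈ (A x).2.2, r ∈ rns (A x).1 (A x).2.1 (w x) := by
    refine dp_ex_mem (p := fun x r => r ∈ rns (A x).1 (A x).2.1 (w x)) ?_ (by fun_prop)
    exact dp_mem (by fun_prop) (computable_rns (by fun_prop) (by fun_prop) (by fun_prop))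
  exact dp_of_eq h fun x => mem_autLang.symm

theorem dp_sst {A : α → Aut m} {w w' : α → List (Fin m)} (hA : Computable A) (hw : Computable w)
    (hw' : Computable w') : DP O fun x => sst (A x) (w x) (w' x) :=
  DP.and (dp_sub (computable_rns (by fun_prop) (by fun_prop) hw)
    (computable_rns (by fun_prop) (by fun_prop) hw'))
    (dp_sub (computable_rns (by fun_prop) (by fun_prop) hw')
    (computable_rns (by fun_prop) (by fun_prop) hw))

/-- the certificate for a negative answer -/
def NoC (X : Set (Cfg m)) (A : Aut m) (k : ℕ) (W : List (List (Fin m))) : Prop :=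
  (∃ w' ∈ W, eqv k [] w' ∧ sst A [] w') ∧
  (∀ w ∈ W, ∀ a : Fin m, ∃ w' ∈ W, eqv k (w ++ [a]) w' ∧ sst A (w ++ [a]) w') ∧
  ∀ w ∈ W, w ∈ autLang A → ∀ z ∈ BX X, ¬ eqv k z w

theorem NoC.sound {X : Set (Cfg m)} {A : Aut m} {k : ℕ} {W : List (List (Fin m))}
    (h : NoC X A k W) : ¬ ∃ w ∈ autLang A, w ∈ BX X := by
  rintro ⟨z, hz1, hz2⟩
  have key : ∀ w : List (Fin m), ∃ w' ∈ W, eqv k w w' ∧ sst A w w' := by
    intro w
    induction w using List.reverseRecOn with
    | nil => exact h.1
    | append_singleton w a ih =>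
      obtain ⟨w', h1, h2, h3⟩ := ih
      obtain ⟨w'', h4, h5, h6⟩ := h.2.1 w' h1 a
      exact ⟨w'', h4, (h2.app a).trans h5, (h3.app a).trans h6⟩
  obtain ⟨w, h1, h2, h3⟩ := key z
  exact h.2.2 w h1 (h3.lang.1 hz1) z hz2 h2

theorem NoC.complete {X : Set (Cfg m)} {A : Aut m} (hLT : LocallyTestable (autLang A))
    (hno : ¬ ∃ w ∈ autLang A, w ∈ BX X) : ∃ k W, NoC X A k W := by
  obtain ⟨k, hk, hL⟩ := hLT
  obtain ⟨W, hW⟩ := finite_index A k
  refine ⟨k, W, hW [], fun w _ a => hW _, fun w _ hwA z hz he => hno ⟨z, ?_, hz⟩⟩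
  exact (eqv.lt hL hk he).2 hwA

theorem re_noC {D : Str m} (hB : ComputablePred fun w : List (Fin m) => w ∈ BX D.X) :
    REPred fun A : Aut m => ∃ k W, NoC D.X A k W := by
  apply re_of_empty
  have hno : REIn ∅ fun p : ℕ × List (Fin m) => ∀ z ∈ BX D.X, ¬ eqv p.1 z p.2 :=
    REIn.of_re (Str.re_no hB)
  refine REIn.ex (S := fun (A : Aut m) (k : ℕ) => ∃ W, NoC D.X A k W) ?_
  refine REIn.ex (S := fun (x : Aut m × ℕ) (W : List (List (Fin m))) => NoC D.X x.1 x.2 W) ?_
  unfold NoC
  have h1 : DP ∅ fun x : (Aut m × ℕ) × List (List (Fin m)) =>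
      ∃ w' ∈ x.2, eqv x.1.2 [] w' ∧ sst x.1.1 [] w' := by
    refine dp_ex_mem (p := fun (x : (Aut m × ℕ) × List (List (Fin m))) w' =>
      eqv x.1.2 [] w' ∧ sst x.1.1 [] w') ?_ (by fun_prop)
    exact DP.and (dp_eqv (by fun_prop) (by fun_prop) (by fun_prop))
      (dp_sst (by fun_prop) (by fun_prop) (by fun_prop))
  have h2 : DP ∅ fun x : (Aut m × ℕ) × List (List (Fin m)) => ∀ w ∈ x.2, ∀ a : Fin m,
      ∃ w' ∈ x.2, eqv x.1.2 (w ++ [a]) w' ∧ sst x.1.1 (w ++ [a]) w' := by
    refine dp_all_mem (p := fun (x : (Aut m × ℕ) × List (List (Fin m))) w => ∀ a : Fin m,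
      ∃ w' ∈ x.2, eqv x.1.2 (w ++ [a]) w' ∧ sst x.1.1 (w ++ [a]) w') ?_ (by fun_prop)
    refine dp_all_fin (p := fun (y : ((Aut m × ℕ) × List (List (Fin m))) × List (Fin m))
      (a : Fin m) => ∃ w' ∈ y.1.2, eqv y.1.1.2 (y.2 ++ [a]) w' ∧ sst y.1.1.1 (y.2 ++ [a]) w') ?_
    refine dp_ex_mem (p := fun (y : (((Aut m × ℕ) × List (List (Fin m))) × List (Fin m)) × Fin m)
      w' => eqv y.1.1.1.2 (y.1.2 ++ [y.2]) w' ∧ sst y.1.1.1.1 (y.1.2 ++ [y.2]) w') ?_ (by fun_prop)
    have hc : Computable fun y : ((((Aut m × ℕ) × List (List (Fin m))) × List (Fin m)) × Fin m) ×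
        List (Fin m) => y.1.1.2 ++ [y.1.2] := by fun_prop
    exact DP.and (dp_eqv (by fun_prop) hc (by fun_prop))
      (dp_sst (by fun_prop) hc (by fun_prop))
  refine REIn.and h1.1 (REIn.and h2.1 ?_)
  refine REIn.all_mem (S := fun (x : (Aut m × ℕ) × List (List (Fin m))) (w : List (Fin m)) =>
    w ∈ autLang x.1.1 → ∀ z ∈ BX D.X, ¬ eqv x.1.2 z w) ?_ (by fun_prop)
  have h3 : REIn ∅ fun x : ((Aut m × ℕ) × List (List (Fin m))) × List (Fin m) =>
      x.2 ∉ autLang x.1.1.1 ∨ ∀ z ∈ BX D.X, ¬ eqv x.1.1.2 z x.2 :=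
    REIn.or (dp_lang (by fun_prop) (by fun_prop)).2
      (REIn.comp hno (f := fun x : ((Aut m × ℕ) × List (List (Fin m))) × List (Fin m) =>
        (x.1.1.2, x.2)) (by fun_prop))
  exact h3.of_eq fun x => by tauto

theorem re_yes {X : Set (Cfg m)} (hB : ComputablePred fun w : List (Fin m) => w ∈ BX X) :
    REPred fun A : Aut m => ∃ w ∈ autLang A, w ∈ BX X := by
  apply re_of_empty
  refine REIn.ex (S := fun (A : Aut m) (w : List (Fin m)) => w ∈ autLang A ∧ w ∈ BX X) ?_
  exact REIn.and (dp_lang (by fun_prop) (by fun_prop)).1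
    (DP.comp (dp_cp hB) (by fun_prop)).1

/-- the decision procedure -/
theorem procedure {D : Str m} (hB : ComputablePred fun w : List (Fin m) => w ∈ BX D.X) :
    ∃ f : Aut m →. Bool, Partrec f ∧
      (∀ A b, b ∈ f A → (b = true ↔ ∃ w ∈ autLang A, w ∈ BX D.X)) ∧
      ∀ A, LocallyTestable (autLang A) → (f A).Dom := by
  have h1 := re_yes hB
  have h2 := re_noC hB
  have g1 : Partrec fun A : Aut m => (Part.assert (∃ w ∈ autLang A, w ∈ BX D.X)
    fun _ => Part.some ()).map fun _ => true := h1.map (Computable.const true).to₂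
  have g2 : Partrec fun A : Aut m => (Part.assert (∃ k W, NoC D.X A k W)
    fun _ => Part.some ()).map fun _ => false := h2.map (Computable.const false).to₂
  have m1 : ∀ A b, b ∈ ((Part.assert (∃ w ∈ autLang A, w ∈ BX D.X)
      fun _ => Part.some ()).map fun _ => true) ↔ b = true ∧ ∃ w ∈ autLang A, w ∈ BX D.X := by
    intro A b
    simp only [Part.mem_map_iff, Part.mem_assert_iff]
    constructor
    · rintro ⟨u, ⟨h, -⟩, rfl⟩
      exact ⟨rfl, h⟩
    · rintro ⟨rfl, h⟩
      exact ⟨(), ⟨h, Part.mem_some ()⟩, rfl⟩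
  have m2 : ∀ A b, b ∈ ((Part.assert (∃ k W, NoC D.X A k W)
      fun _ => Part.some ()).map fun _ => false) ↔ b = false ∧ ∃ k W, NoC D.X A k W := by
    intro A b
    simp only [Part.mem_map_iff, Part.mem_assert_iff]
    constructor
    · rintro ⟨u, ⟨h, -⟩, rfl⟩
      exact ⟨rfl, h⟩
    · rintro ⟨rfl, h⟩
      exact ⟨(), ⟨h, Part.mem_some ()⟩, rfl⟩
  obtain ⟨f, hf, hf2⟩ := Partrec.merge g1 g2 (by
    intro A x hx y hy
    rw [m1] at hx
    rw [m2] at hy
    obtain ⟨k, W, h⟩ := hy.2
    exact absurd hx.2 h.sound)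
  refine ⟨f, hf, fun A b hb => ?_, fun A hA => ?_⟩
  · rcases (hf2 A b).1 hb with h | h
    · rw [m1] at h
      exact ⟨fun _ => h.2, fun _ => h.1⟩
    · rw [m2] at h
      obtain ⟨k, W, h3⟩ := h.2
      exact ⟨fun h4 => absurd (h.1.symm.trans h4) (by simp), fun h4 => absurd h4 h3.sound⟩
  · by_cases h : ∃ w ∈ autLang A, w ∈ BX D.X
    · exact Part.dom_iff_mem.2 ⟨true, (hf2 A true).2 (Or.inl ((m1 A true).2 ⟨rfl, h⟩))⟩
    · exact Part.dom_iff_mem.2 ⟨false, (hf2 A false).2 (Or.inr ((m2 A false).2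
        ⟨rfl, NoC.complete hA h⟩))⟩

end

end Pool.Agent.R626.QM
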