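import Mathlib

/-!
Countable subshifts with finitely many subsystems: orbits, anchors.
-/

set_option autoImplicit false
set_option linter.unusedSectionVars false

namespace Pool.Agent.R626.QM

variable {m : ℕ}

/-- configurations -/
abbrev Cfg (m : ℕ) := ℤ → Fin m

/-- the shift by `t` -/
def sh (t : ℤ) (x : Cfg m) : Cfg m := fun i => x (i + t)

theorem sh_apply (t : ℤ) (x : Cfg m) (i : ℤ) : sh t x i = x (i + t) := rfl

theorem sh_sh (s t : ℤ) (x : Cfg m) : sh s (sh t x) = sh (s + t) x := by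
  funext i
  simp only [sh_apply]
  congr 1
  ring

theorem sh_zero (x : Cfg m) : sh 0 x = x := by
  funext i
  simp only [sh_apply, add_zero]

/-- subshifts -/
def IsSubshift (X : Set (Cfg m)) : Prop := IsClosed X ∧ sh 1 '' X = X

theorem IsSubshift.sh_mem {X : Set (Cfg m)} (hX : IsSubshift X) (t : ℤ) {x : Cfg m}
    (hx : x ∈ X) : sh t x ∈ X := by
  have h1 : ∀ y ∈ X, sh 1 y ∈ X := fun y hy => by
    have : sh 1 y ∈ sh 1 '' X := ⟨y, hy, rfl⟩
    rwa [hX.2] at this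
  have h2 : ∀ y ∈ X, sh (-1) y ∈ X := fun y hy => by
    have : y ∈ sh 1 '' X := by rw [hX.2]; exact hy
    obtain ⟨z, hz, rfl⟩ := this
    rw [sh_sh, show (-1 + 1 : ℤ) = 0 by norm_num, sh_zero]
    exact hz
  induction t using Int.induction_on with
  | zero => rwa [sh_zero]
  | succ n ih =>
    have := h1 _ ih
    rw [sh_sh] at this
    rwa [add_comm]
  | pred n ih =>
    have := h2 _ ih
    rw [sh_sh] at this
    rwa [show (-(n : ℤ) - 1) = -1 + -(n : ℤ) by ring]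

/-- agreement on a centered interval -/
def Agree (r : ℕ) (x y : Cfg m) : Prop := ∀ c : ℤ, -(r : ℤ) ≤ c → c ≤ r → x c = y c

theorem Agree.symm {r : ℕ} {x y : Cfg m} (h : Agree r x y) : Agree r y x :=
  fun c h1 h2 => (h c h1 h2).symm

theorem Agree.trans {r : ℕ} {x y z : Cfg m} (h : Agree r x y) (h' : Agree r y z) : Agree r x z :=
  fun c h1 h2 => (h c h1 h2).trans (h' c h1 h2)

theorem Agree.mono {r s : ℕ} {x y : Cfg m} (h : Agree r x y) (hs : s ≤ r) : Agree s x y :=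
  fun c h1 h2 => h c (by omega) (by omega)

theorem isOpen_cyl (y : Cfg m) (r : ℕ) : IsOpen {z | Agree r z y} := by
  have h : {z | Agree r z y} = ⋂ c ∈ Finset.Icc (-(r : ℤ)) r, (fun z : Cfg m => z c) ⁻¹' {y c} := by
    ext z
    simp only [Set.mem_iInter, Set.mem_preimage, Set.mem_singleton_iff, Finset.mem_Icc]
    exact ⟨fun h c hc => h c hc.1 hc.2, fun h c h1 h2 => h c ⟨h1, h2⟩⟩
  rw [h]
  exact isOpen_biInter_finset fun c _ => (isOpen_discrete _).preimage (continuous_apply c)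

theorem exists_cyl {O : Set (Cfg m)} (hO : IsOpen O) {y : Cfg m} (hy : y ∈ O) :
    ∃ r : ℕ, ∀ z, Agree r z y → z ∈ O := by
  obtain ⟨I, u, h1, h2⟩ := isOpen_pi_iff.1 hO y hy
  obtain ⟨r, hr⟩ : ∃ r : ℕ, ∀ c ∈ I, -(r : ℤ) ≤ c ∧ c ≤ r := by
    refine ⟨I.sup Int.natAbs, fun c hc => ?_⟩
    have : c.natAbs ≤ I.sup Int.natAbs := Finset.le_sup (f := Int.natAbs) hc
    omega
  refine ⟨r, fun z hz => h2 fun c hc => ?_⟩
  rw [hz c (hr c hc).1 (hr c hc).2]
  exact (h1 c hc).2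

theorem isClosed_of_local {P : Cfg m → Prop} (r : ℕ) (h : ∀ y z, Agree r y z → P y → P z) :
    IsClosed {y | P y} := by
  rw [← isOpen_compl_iff, isOpen_iff_forall_mem_open]
  intro y hy
  refine ⟨{z | Agree r z y}, fun z hz hPz => hy (h z y hz hPz), isOpen_cyl y r,
    fun c _ _ => rfl⟩

/-- compactness -/
theorem konig {X : Set (Cfg m)} (hX : IsClosed X) {P : ℕ → Cfg m → Prop}
    (hloc : ∀ n, ∃ r : ℕ, ∀ y z, Agree r y z → P n y → P n z)
    (hanti : ∀ n y, P (n + 1) y → P n y) (hex : ∀ n, ∃ y ∈ X, P n y) :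
    ∃ y ∈ X, ∀ n, P n y := by
  have hcl : ∀ n, IsClosed {y | y ∈ X ∧ P n y} := by
    intro n
    obtain ⟨r, hr⟩ := hloc n
    exact hX.inter (isClosed_of_local r hr)
  have h := IsCompact.nonempty_iInter_of_sequence_nonempty_isCompact_isClosed
    (fun n => {y | y ∈ X ∧ P n y}) (fun n y hy => ⟨hy.1, hanti n y hy.2⟩)
    (fun n => by obtain ⟨y, h1, h2⟩ := hex n; exact ⟨y, h1, h2⟩)
    (hcl 0).isCompact hcl
  obtain ⟨y, hy⟩ := h
  rw [Set.mem_iInter] at hy
  exact ⟨y, (hy 0).1, fun n => (hy n).2⟩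

/-- the orbit closure -/
def ZO (x : Cfg m) : Set (Cfg m) := {y | ∀ r : ℕ, ∃ t : ℤ, Agree r y (sh t x)}

theorem sh_mem_ZO (x : Cfg m) (t : ℤ) : sh t x ∈ ZO x := fun _ => ⟨t, fun _ _ _ => rfl⟩

theorem self_mem_ZO (x : Cfg m) : x ∈ ZO x := by
  have := sh_mem_ZO x 0
  rwa [sh_zero] at this

theorem isClosed_ZO (x : Cfg m) : IsClosed (ZO x) := by
  rw [← isOpen_compl_iff, isOpen_iff_forall_mem_open]
  intro y hy
  have hy' : ∃ r : ℕ, ∀ t, ¬ Agree r y (sh t x) := by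
    by_contra hcon
    push Not at hcon
    exact hy hcon
  obtain ⟨r, hr⟩ := hy'
  refine ⟨{z | Agree r z y}, fun z hz hzx => ?_, isOpen_cyl y r, fun c _ _ => rfl⟩
  obtain ⟨t, ht⟩ := hzx r
  exact hr t (Agree.trans (Agree.symm hz) ht)

theorem sh_ZO {x y : Cfg m} (hy : y ∈ ZO x) (t : ℤ) : sh t y ∈ ZO x := by
  intro r
  obtain ⟨u, hu⟩ := hy (r + t.natAbs)
  refine ⟨t + u, fun c h1 h2 => ?_⟩
  rw [sh_apply, hu (c + t) (by rw [Nat.cast_add]; omega) (by rw [Nat.cast_add]; omega), sh_apply,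
    sh_apply]
  congr 1
  ring

theorem isSubshift_ZO (x : Cfg m) : IsSubshift (ZO x) := by
  refine ⟨isClosed_ZO x, ?_⟩
  ext y
  constructor
  · rintro ⟨z, hz, rfl⟩
    exact sh_ZO hz 1
  · intro hy
    refine ⟨sh (-1) y, sh_ZO hy _, ?_⟩
    rw [sh_sh, show (1 + -1 : ℤ) = 0 by norm_num, sh_zero]

theorem ZO_subset {X : Set (Cfg m)} (hX : IsSubshift X) {x : Cfg m} (hx : x ∈ X) : ZO x ⊆ X := by
  intro y hy
  by_contra hcon
  obtain ⟨r, hr⟩ := exists_cyl (O := Xᶜ) hX.1.isOpen_compl hcon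
  obtain ⟨t, ht⟩ := hy r
  exact hr (sh t x) (Agree.symm ht) (hX.sh_mem t hx)

theorem ZO_trans {x y z : Cfg m} (h1 : y ∈ ZO x) (h2 : z ∈ ZO y) : z ∈ ZO x :=
  ZO_subset (isSubshift_ZO x) h1 h2

/-- isolated points of countable closed sets -/
theorem exists_isolated {Z : Set (Cfg m)} (hZ : IsClosed Z) (hc : Z.Countable)
    (hne : Z.Nonempty) : ∃ y ∈ Z, ∃ r : ℕ, ∀ z ∈ Z, Agree r z y → z = y := by
  haveI : CompactSpace Z := isCompact_iff_compactSpace.1 hZ.isCompact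
  haveI : Countable Z := hc.to_subtype
  haveI : Nonempty Z := hne.to_subtype
  obtain ⟨y, hy⟩ := nonempty_interior_of_iUnion_of_closed (X := Z) (ι := Z) (f := fun z => {z})
    (fun z => isClosed_singleton) (by
      ext z
      simp)
  obtain ⟨z, hz⟩ := hy
  have hzy : z = y := by
    have := interior_subset hz
    exact this
  subst hzy
  have hopen : IsOpen ({z} : Set Z) := by
    have h1 : interior {z} = ({z} : Set Z) :=
      Set.Subset.antisymm interior_subset (by rintro _ rfl; exact hz)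
    rw [← h1]
    exact isOpen_interior
  obtain ⟨O, hO, hO2⟩ := isOpen_induced_iff.1 hopen
  have hzO : (z : Cfg m) ∈ O := by
    have : z ∈ Subtype.val ⁻¹' O := by rw [hO2]; rfl
    exact this
  obtain ⟨r, hr⟩ := exists_cyl hO hzO
  refine ⟨z, z.2, r, fun w hw hag => ?_⟩
  have h2 : (⟨w, hw⟩ : Z) ∈ Subtype.val ⁻¹' O := hr w hag
  rw [hO2] at h2
  exact congrArg Subtype.val (Set.mem_singleton_iff.1 h2)

theorem isolated {X : Set (Cfg m)} (hX : IsSubshift X) (hc : X.Countable) {x : Cfg m}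
    (hx : x ∈ X) : ∃ r : ℕ, ∀ z ∈ ZO x, Agree r z x → z = x := by
  obtain ⟨y, hy, r, hr⟩ := exists_isolated (isClosed_ZO x) (hc.mono (ZO_subset hX hx))
    ⟨x, self_mem_ZO x⟩
  obtain ⟨t, ht⟩ := hy r
  have h1 : sh t x = y := hr _ (sh_mem_ZO x t) (Agree.symm ht)
  refine ⟨r + t.natAbs, fun z hz hag => ?_⟩
  have h2 : sh t z = y := by
    refine hr _ (sh_ZO hz t) fun c h3 h4 => ?_
    rw [← h1, sh_apply, sh_apply]
    exact hag _ (by rw [Nat.cast_add]; omega) (by rw [Nat.cast_add]; omega)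
  have h3 : sh (-t) (sh t z) = sh (-t) (sh t x) := by rw [h2, h1]
  rwa [sh_sh, sh_sh, neg_add_cancel, sh_zero, sh_zero] at h3

/-- the points of a countable subshift with finitely many subsystems form finitely many orbits;
with anchors -/
theorem structure_thm {X : Set (Cfg m)} (hX : IsSubshift X) (hc : X.Countable)
    (hfin : {Y : Set (Cfg m) | IsSubshift Y ∧ Y ⊆ X}.Finite) :
    ∃ (n : ℕ) (x : Fin n → Cfg m) (h : ℕ), (∀ l, x l ∈ X) ∧
      (∀ y ∈ X, ∃ l t, y = sh t (x l)) ∧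
      (∀ l, ∀ z ∈ ZO (x l), (∀ c : ℤ, 0 ≤ c → c < h → z c = x l c) → z = x l) ∧
      (∀ i l t, (∀ c : ℤ, 0 ≤ c → c < h → x l (t + c) = x i c) → x i ∈ ZO (x l)) := by
  classical
  -- representatives
  have hfin2 : ((fun x => ZO x) '' X).Finite := by
    refine hfin.subset ?_
    rintro _ ⟨x, hx, rfl⟩
    exact ⟨isSubshift_ZO x, ZO_subset hX hx⟩
  obtain ⟨n, F, hF⟩ : ∃ (n : ℕ) (F : Fin n → Set (Cfg m)), Set.range F = (fun x => ZO x) '' X := by
    have := hfin2.fintype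
    refine ⟨Fintype.card ((fun x => ZO x) '' X), fun i => ((Fintype.equivFin _).symm i :
      ((fun x => ZO x) '' X)), ?_⟩
    ext Z
    constructor
    · rintro ⟨i, rfl⟩
      exact Subtype.coe_prop _
    · intro hZ
      exact ⟨(Fintype.equivFin _) ⟨Z, hZ⟩, by simp⟩
  have hrep : ∀ l, ∃ x ∈ X, ZO x = F l := by
    intro l
    have : F l ∈ (fun x => ZO x) '' X := by rw [← hF]; exact ⟨l, rfl⟩
    obtain ⟨x, hx, h1⟩ := this
    exact ⟨x, hx, h1⟩
  choose x0 hx0 hx1 using hrep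
  choose r0 hr0 using fun l => isolated hX hc (hx0 l)
  -- separation radii
  have hsep : ∀ i l, ∃ r : ℕ, x0 i ∉ ZO (x0 l) → ∀ t, ¬ Agree r (x0 i) (sh t (x0 l)) := by
    intro i l
    by_cases hi : x0 i ∈ ZO (x0 l)
    · exact ⟨0, fun h => absurd hi h⟩
    · have : ∃ r : ℕ, ∀ t, ¬ Agree r (x0 i) (sh t (x0 l)) := by
        by_contra hcon
        push Not at hcon
        exact hi hcon
      obtain ⟨r, hr⟩ := this
      exact ⟨r, fun _ => hr⟩
  choose r1 hr1 using hsep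
  obtain ⟨R, hR1, hR2⟩ : ∃ R : ℕ, (∀ l, r0 l ≤ R) ∧ ∀ i l, r1 i l ≤ R := by
    refine ⟨(Finset.univ.sup r0) + Finset.univ.sup fun p : Fin n × Fin n => r1 p.1 p.2,
      fun l => ?_, fun i l => ?_⟩
    · exact (Finset.le_sup (Finset.mem_univ l)).trans (Nat.le_add_right _ _)
    · exact (Finset.le_sup (f := fun p : Fin n × Fin n => r1 p.1 p.2)
        (Finset.mem_univ (i, l))).trans (Nat.le_add_left _ _)
  have hZsh : ∀ (x : Cfg m) (t : ℤ), ZO (sh t x) = ZO x := by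
    intro x t
    apply Set.Subset.antisymm
    · exact ZO_subset (isSubshift_ZO x) (sh_mem_ZO x t)
    · apply ZO_subset (isSubshift_ZO _)
      have := sh_mem_ZO (sh t x) (-t)
      rwa [sh_sh, neg_add_cancel, sh_zero] at this
  refine ⟨n, fun l => sh (-(R : ℤ)) (x0 l), 2 * R + 1, fun l => hX.sh_mem _ (hx0 l), ?_, ?_, ?_⟩
  · intro y hy
    have : ZO y ∈ Set.range F := by rw [hF]; exact ⟨y, hy, rfl⟩
    obtain ⟨l, hl⟩ := this
    rw [← hx1 l] at hl
    have h1 : x0 l ∈ ZO y := by rw [← hl]; exact self_mem_ZO _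
    obtain ⟨t, ht⟩ := h1 (r0 l)
    have h2 : sh t y = x0 l := by
      refine hr0 l _ ?_ (Agree.symm ht)
      rw [hl]
      exact sh_mem_ZO y t
    refine ⟨l, R - t, ?_⟩
    have e1 : y = sh (-t) (x0 l) := by rw [← h2, sh_sh, neg_add_cancel, sh_zero]
    show y = sh (R - t) (sh (-(R : ℤ)) (x0 l))
    rw [sh_sh, e1]
    congr 1
    ring
  · intro l z hz hag
    simp only [sh_apply] at hag
    rw [hZsh] at hz
    have h1 : sh R z = x0 l := by
      refine hr0 l _ (sh_ZO hz _) fun c h1 h2 => ?_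
      have h3 := hR1 l
      have h4 := hag (c + R) (by omega) (by push_cast; omega)
      rw [sh_apply, h4]
      congr 1
      ring
    show z = sh (-(R : ℤ)) (x0 l)
    rw [← h1, sh_sh, neg_add_cancel, sh_zero]
  · intro i l t hag
    rw [hZsh]
    apply sh_ZO
    by_contra hcon
    refine hr1 i l hcon t fun c h1 h2 => ?_
    have h3 := hR2 i l
    have h4 := hag (c + R) (by omega) (by push_cast; omega)
    simp only [sh_apply] at h4
    rw [sh_apply]
    have e1 : c + (R : ℤ) + -(R : ℤ) = c := by ring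
    have e2 : t + (c + (R : ℤ)) + -(R : ℤ) = c + t := by ring
    rw [e1, e2] at h4
    exact h4.symm

end Pool.Agent.R626.QM
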