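import Pool.Agent.R626.QM.Compl
import Pool.Agent.R626.VZ.Cmp

/-!
Computability of the representatives and decidability of the certificate.
-/

set_option autoImplicit false
set_option linter.unusedSectionVars false

namespace Pool.Agent.R626.QM

open Encodable Pool.Agent.Helper446 Pool.Agent.Helper446.Defs Pool.Agent.Helper446.Oracle
open Pool.Agent.Y545.HM
open Pool.Agent.R626.VZ (dp_of_eq dp_all_mem dp_imp dp_iff)

section general

variable {α β γ : Type*} [Primcodable α] [Primcodable β] [Primcodable γ] {O : Set ℕ} {m : ℕ}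

theorem dp_ex_mem {p : α → β → Prop} (h : DP O fun x : α × β => p x.1 x.2) {l : α → List β}
    (hl : Computable l) : DP O fun a => ∃ b ∈ l a, p a b := by
  refine dp_of_eq (dp_all_mem (p := fun a b => ¬ p a b) h.not hl).not fun a => ?_
  push Not
  rfl

theorem dp_mem {f : α → β} {l : α → List β} (hf : Computable f) (hl : Computable l) :
    DP O fun a => f a ∈ l a :=
  DP.of_re (RE.mem_list hf hl) (RE.not_mem_list hf hl)

theorem dp_cp {p : α → Prop} (h : ComputablePred p) : DP O p :=
  DP.of_re h.to_re (ComputablePred.not h).to_re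

theorem dp_fin [Finite α] (p : α → Prop) : DP O p := by
  classical
  apply dp_cp
  rw [ComputablePred.computable_iff]
  exact ⟨fun a => decide (p a), (Primrec.dom_finite _).to_comp, by funext a; simp⟩

theorem dp_all_fin {n : ℕ} {p : α → Fin n → Prop} (h : DP O fun x : α × Fin n => p x.1 x.2) :
    DP O fun a => ∀ i, p a i :=
  dp_of_eq (dp_all_mem (l := fun _ : α => List.finRange n) h (by fun_prop)) fun a => by simp

theorem dp_ex_fin {n : ℕ} {p : α → Fin n → Prop} (h : DP O fun x : α × Fin n => p x.1 x.2) :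
    DP O fun a => ∃ i, p a i :=
  dp_of_eq (dp_ex_mem (l := fun _ : α => List.finRange n) h (by fun_prop)) fun a => by simp

theorem dp_sub {l l' : α → List β} (h : Computable l) (h' : Computable l') :
    DP O fun a => ∀ v ∈ l a, v ∈ l' a :=
  dp_all_mem (p := fun a v => v ∈ l' a) (dp_mem (by fun_prop) (by fun_prop)) h

theorem computable_drop {i : α → ℕ} {l : α → List β} (hi : Computable i) (hl : Computable l) :
    Computable fun a => (l a).drop (i a) := Primrec.list_drop.to_comp.comp hi hl

theorem computable_take {i : α → ℕ} {l : α → List β} (hi : Computable i) (hl : Computable l) :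
    Computable fun a => (l a).take (i a) := Primrec.list_take.to_comp.comp hi hl

theorem computable_fac {k : α → ℕ} {z : α → List (Fin m)} (hk : Computable k)
    (hz : Computable z) : Computable fun a => fac (k a) (z a) := by
  have h : Primrec fun p : ℕ × List (Fin m) => fac p.1 p.2 := by
    unfold fac
    refine Primrec.list_map (Primrec.list_range.comp ?_) ?_
    · exact Primrec.nat_sub.comp (Primrec.succ.comp (Primrec.list_length.comp Primrec.snd))
        Primrec.fst
    · exact Primrec.list_take.comp (Primrec.fst.comp Primrec.fst)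
        (Primrec.list_drop.comp Primrec.snd (Primrec.snd.comp Primrec.fst))
  exact h.to_comp.comp (hk.pair hz)

theorem computable_allW (m : ℕ) : Computable (allW m) := by
  have h : Primrec fun n : ℕ => (Nat.rec [[]] (fun _ L => L.flatMap fun w =>
      (List.finRange m).map fun a => a :: w) n : List (List (Fin m))) := by
    refine Primrec.nat_rec₁ _ ?_
    refine Primrec.list_flatMap Primrec.snd ?_
    refine Primrec.list_map (Primrec.const _) ?_
    exact Primrec.list_cons.comp Primrec.snd (Primrec.snd.comp Primrec.fst)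
  refine (h.of_eq fun n => ?_).to_comp
  induction n with
  | zero => rfl
  | succ n ih =>
    simp only [allW]
    rw [← ih]

theorem dp_eqv {k : α → ℕ} {z w : α → List (Fin m)} (hk : Computable k) (hz : Computable z)
    (hw : Computable w) : DP O fun a => eqv (k a) (z a) (w a) := by
  unfold eqv
  refine DP.or (dp_eq hz hw) (DP.and (dp_le hk (by fun_prop)) (DP.and (dp_le hk (by fun_prop))
    (DP.and (dp_eq (computable_take hk hz) (computable_take hk hw))
      (DP.and (dp_eq (computable_drop (by fun_prop) hz) (computable_drop (by fun_prop) hw))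
        (DP.and (dp_sub (computable_fac hk hz) (computable_fac hk hw))
          (dp_sub (computable_fac hk hw) (computable_fac hk hz)))))))

end general

namespace Str

variable {m : ℕ} (D : Str m)

/-- the anchor words -/
def va (i : Fin D.n) : List (Fin m) := wz (D.x i) 0 D.h

theorem occ_iff {i : Fin D.n} {y : Cfg m} {u : ℤ} : D.occ i y u ↔ wz y u D.h = D.va i := by
  unfold va
  constructor
  · intro h
    apply wz_congr
    intro c h1 h2
    rw [h c h1 h2, zero_add]
  · intro h c h1 h2
    have := wz_ptw h c h1 h2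
    rwa [zero_add] at this

/-- a finite neighbourhood determines the letter -/
theorem exists_letter (l : Fin D.n) (c : ℤ) : ∃ d : ℕ, ∀ y ∈ D.X, D.occ l y 0 →
    (∀ i, ¬ D.down l i → ∀ u : ℤ, -(d : ℤ) ≤ u → u ≤ d → ¬ D.occ i y u) → y c = D.x l c := by
  by_contra hcon
  push Not at hcon
  obtain ⟨y, hy, hP⟩ := konig D.hX.1
    (P := fun (d : ℕ) y => D.occ l y 0 ∧
      (∀ i, ¬ D.down l i → ∀ u : ℤ, -(d : ℤ) ≤ u → u ≤ d → ¬ D.occ i y u) ∧ y c ≠ D.x l c)
    (fun d => ⟨d + D.h + c.natAbs, fun y z hyz ⟨h1, h2, h3⟩ => ⟨fun c' hc1 hc2 => by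
        rw [← hyz _ (by omega) (by rw [Nat.cast_add, Nat.cast_add]; omega)]
        exact h1 c' hc1 hc2, fun i hi u hu1 hu2 ho => h2 i hi u hu1 hu2
      fun c' hc1 hc2 => by
        rw [hyz _ (by rw [Nat.cast_add, Nat.cast_add]; omega)
          (by rw [Nat.cast_add, Nat.cast_add]; omega)]
        exact ho c' hc1 hc2,
      by rwa [← hyz c (by rw [Nat.cast_add, Nat.cast_add]; omega)
        (by rw [Nat.cast_add, Nat.cast_add]; omega)]⟩⟩)
    (fun d y ⟨h1, h2, h3⟩ => ⟨h1, fun i hi u hu1 hu2 => h2 i hi u (by push_cast; omega)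
      (by push_cast; omega), h3⟩)
    (fun d => by
      obtain ⟨y, hy, h1, h2, h3⟩ := hcon d
      exact ⟨y, hy, h1, h2, h3⟩)
  obtain ⟨j, t, rfl⟩ := D.hall y hy
  have hd : D.down l j := by
    by_contra hd
    refine (hP t.natAbs).2.1 j hd (-t) (by omega) (by omega) fun c h1 h2 => ?_
    rw [sh_apply]
    congr 1
    ring
  have h1 : sh t (D.x j) = D.x l := by
    refine D.hU l _ (sh_ZO hd t) fun c h1 h2 => ?_
    have := (hP 0).1 c h1 h2
    rwa [zero_add] at this
  exact (hP 0).2.2 (by rw [h1])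

variable {D}

theorem computable_letter (hB : ComputablePred fun w : List (Fin m) => w ∈ BX D.X) :
    Computable fun p : Fin D.n × ℕ × ℕ => D.x p.1 ((p.2.1 : ℤ) - p.2.2) := by
  apply RE.computable_of_graph
  apply re_of_empty
  have hva : Computable fun i : Fin D.n => D.va i := (Primrec.dom_finite _).to_comp
  have h1 : DP ∅ fun x : ((Fin D.n × ℕ × ℕ) × Fin m) × ℕ => x.1.1.2.1 + x.1.1.2.2 ≤ x.2 ∧
      ∀ z ∈ allW m (2 * x.2 + 1 + D.h), z ∈ BX D.X → (z.drop x.2).take D.h = D.va x.1.1.1 →
      (∀ i, ¬ D.down x.1.1.1 i → ∀ p, p < 2 * x.2 + 1 → (z.drop p).take D.h ≠ D.va i) →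
      z[x.2 + x.1.1.2.1 - x.1.1.2.2]? = some x.1.2 := by
    refine DP.and (dp_le (by fun_prop) (by fun_prop)) ?_
    refine dp_all_mem (p := fun (x : ((Fin D.n × ℕ × ℕ) × Fin m) × ℕ) (z : List (Fin m)) =>
      z ∈ BX D.X → (z.drop x.2).take D.h = D.va x.1.1.1 →
      (∀ i, ¬ D.down x.1.1.1 i → ∀ p, p < 2 * x.2 + 1 → (z.drop p).take D.h ≠ D.va i) →
      z[x.2 + x.1.1.2.1 - x.1.1.2.2]? = some x.1.2) ?_ ((computable_allW m).comp (by fun_prop))
    refine dp_imp (DP.comp (dp_cp hB) (by fun_prop)) (dp_imp (dp_eq (computable_take (by fun_prop)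
      (computable_drop (by fun_prop) (by fun_prop))) (hva.comp (by fun_prop))) (dp_imp ?_
      (dp_eq (by fun_prop) (by fun_prop))))
    refine dp_all_fin (p := fun (x : (((Fin D.n × ℕ × ℕ) × Fin m) × ℕ) × List (Fin m))
      (i : Fin D.n) => ¬ D.down x.1.1.1.1 i → ∀ p, p < 2 * x.1.2 + 1 →
        (x.2.drop p).take D.h ≠ D.va i) ?_
    refine dp_imp (DP.not (DP.comp (p := fun q : Fin D.n × Fin D.n => D.down q.1 q.2)
      (dp_fin _) (f := fun x : ((((Fin D.n × ℕ × ℕ) × Fin m) × ℕ) × List (Fin m)) × Fin D.n =>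
        (x.1.1.1.1.1, x.2)) (by fun_prop))) ?_
    refine DP.all_lt (p := fun (x : ((((Fin D.n × ℕ × ℕ) × Fin m) × ℕ) × List (Fin m)) × Fin D.n)
      (p : ℕ) => (x.1.2.drop p).take D.h ≠ D.va x.2) ?_ (by fun_prop)
    exact DP.not (dp_eq (computable_take (by fun_prop)
      (computable_drop (by fun_prop) (by fun_prop))) (hva.comp (by fun_prop)))
  refine (REIn.ex (S := fun (y : (Fin D.n × ℕ × ℕ) × Fin m) (d : ℕ) => y.1.2.1 + y.1.2.2 ≤ d ∧
      ∀ z ∈ allW m (2 * d + 1 + D.h), z ∈ BX D.X → (z.drop d).take D.h = D.va y.1.1 →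
      (∀ i, ¬ D.down y.1.1 i → ∀ p, p < 2 * d + 1 → (z.drop p).take D.h ≠ D.va i) →
      z[d + y.1.2.1 - y.1.2.2]? = some y.2) h1.1).of_eq ?_
  rintro ⟨⟨l, a, b⟩, e⟩
  simp only
  constructor
  · rintro ⟨d, hd, h2⟩
    have h3 := h2 (wz (D.x l) (-(d : ℤ)) (2 * d + 1 + D.h)) (mem_allW.2 (wz_length _ _ _))
      (wz_mem_BX (D.hx l) _ _) (by
        rw [wz_drop_take (by omega)]
        unfold va
        congr 1
        omega) (by
        intro i hi p hp hcon
        rw [wz_drop_take (by omega), ← occ_iff] at hcon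
        exact hi (occ_down hcon))
    rw [wz_getElem?, if_pos (by omega)] at h3
    rw [← Option.some.inj h3]
    congr 1
    omega
  · rintro rfl
    obtain ⟨d0, hd0⟩ := D.exists_letter l ((a : ℤ) - b)
    refine ⟨d0 + a + b, by omega, fun z hz1 hz2 hz3 hz4 => ?_⟩
    rw [mem_allW] at hz1
    obtain ⟨y, hy, u, hu⟩ := hz2
    rw [hz1] at hu
    obtain ⟨d, hd⟩ : ∃ d, d = d0 + a + b := ⟨_, rfl⟩
    rw [← hd] at hz1 hz3 hz4 hu ⊢
    have h3 := hd0 (sh (u + d) y) (D.hX.sh_mem _ hy) (by
      rw [occ_iff, ← hz3, ← hu, wz_drop_take (by omega)]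
      apply wz_congr
      intro c _ _
      rw [sh_apply]
      congr 1
      ring) (by
      intro i hi u' h4 h5 ho
      refine hz4 i hi (u' + d).toNat (by omega) ?_
      rw [occ_iff] at ho
      rw [← ho, ← hu, wz_drop_take (by omega)]
      apply wz_congr
      intro c _ _
      rw [sh_apply]
      congr 1
      omega)
    rw [← h3, ← hu, wz_getElem?, if_pos (by omega), sh_apply]
    congr 2
    omega

variable {α : Type*} [Primcodable α] {O : Set ℕ}

theorem computable_gz (hB : ComputablePred fun w : List (Fin m) => w ∈ BX D.X)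
    {l : α → Fin D.n} {a b n : α → ℕ} (hl : Computable l) (ha : Computable a) (hb : Computable b)
    (hn : Computable n) : Computable fun x => D.gz (l x) (a x) (b x) (n x) := by
  have h := computable_letter hB
  have h1 : Computable fun x : α => (Nat.rec [] (fun i acc =>
      acc ++ [D.x (l x) (((a x + i : ℕ) : ℤ) - b x)]) (n x) : List (Fin m)) := by
    refine Computable.nat_rec (f := n) (g := fun _ : α => ([] : List (Fin m)))
      (h := fun (x : α) (y : ℕ × List (Fin m)) =>
        y.2 ++ [D.x (l x) (((a x + y.1 : ℕ) : ℤ) - b x)]) hn (by fun_prop) ?_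
    have h2 : Computable fun p : α × ℕ × List (Fin m) =>
        D.x (l p.1) (((a p.1 + p.2.1 : ℕ) : ℤ) - b p.1) :=
      h.comp (f := fun q : Fin D.n × ℕ × ℕ => D.x q.1 ((q.2.1 : ℤ) - q.2.2))
        (g := fun p : α × ℕ × List (Fin m) => (l p.1, (a p.1 + p.2.1, b p.1))) (by fun_prop)
    exact (Primrec.list_append.to_comp.comp (f := fun q r : List (Fin m) => q ++ r)
      (g := fun p : α × ℕ × List (Fin m) => p.2.2)
      (h := fun p : α × ℕ × List (Fin m) => [D.x (l p.1) (((a p.1 + p.2.1 : ℕ) : ℤ) - b p.1)])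
      (by fun_prop) (Primrec.list_cons.to_comp.comp h2 (Computable.const []))).to₂
  refine h1.of_eq fun x => ?_
  unfold gz
  generalize n x = N
  induction N with
  | zero => rfl
  | succ N ih =>
    show _ ++ _ = _
    rw [ih]
    unfold wz
    rw [List.range_succ, List.map_append, List.map_singleton]
    congr 3
    push_cast
    ring

end Str

end Pool.Agent.R626.QM
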