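import Pool.Agent.R626.QM.Words

/-!
Existence of certificates.
-/

set_option autoImplicit false
set_option linter.unusedSectionVars false

namespace Pool.Agent.R626.QM

namespace Str

variable {m : ℕ} {D : Str m}

theorem fac_mono {k n n' : ℕ} {y : Cfg m} {u u' : ℤ} (h1 : u' ≤ u) (h2 : u + n ≤ u' + n')
    {v : List (Fin m)} (hv : v ∈ fac k (wz y u n)) : v ∈ fac k (wz y u' n') := by
  rw [mem_fac_wz] at hv ⊢
  obtain ⟨q, h3, h4, h5⟩ := hv
  exact ⟨q, by omega, by omega, h5⟩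

theorem exists_A (D : Str m) (k : ℕ) : ∃ A : ℕ, ∀ l, ∀ q : ℤ, wz (D.x l) q k ∈ D.WW k A l := by
  classical
  obtain ⟨A, hA⟩ := fin_bound (ι := Fin D.n × {v // v ∈ (allW m k).toFinset})
    (P := fun p A => (∃ q : ℤ, wz (D.x p.1) q k = p.2) → (p.2 : List (Fin m)) ∈ D.WW k A p.1)
    (fun p N N' hN h hq => by
      have := h hq
      unfold WW gz at this ⊢
      exact fac_mono (by push_cast; omega) (by push_cast; omega) this) (by
      intro p
      by_cases hp : ∃ q : ℤ, wz (D.x p.1) q k = p.2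
      · obtain ⟨q, hq⟩ := hp
        refine ⟨q.natAbs + k, fun _ => ?_⟩
        unfold WW gz
        rw [mem_fac_wz]
        refine ⟨q, ?_, ?_, hq.symm⟩
        · rw [Nat.cast_add]
          omega
        · rw [Nat.cast_mul, Nat.cast_add]
          omega
      · exact ⟨0, fun h => absurd h hp⟩)
  refine ⟨A, fun l q => ?_⟩
  exact hA (l, ⟨wz (D.x l) q k, by rw [List.mem_toFinset, mem_allW, wz_length]⟩) ⟨q, rfl⟩

theorem WW_of_agr {k A : ℕ} {i : Fin D.n} {y : Cfg m} {u : ℤ} (h : D.agr A i y u) {a : ℤ} {n : ℕ}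
    (h1 : a ≤ u - A) (h2 : u + A ≤ a + n) {v : List (Fin m)} (hv : v ∈ D.WW k A i) :
    v ∈ fac k (wz y a n) := by
  unfold WW gz at hv
  rw [mem_fac_wz] at hv ⊢
  push_cast at hv
  obtain ⟨q, h3, h4, rfl⟩ := hv
  refine ⟨u + q, by omega, by omega, ?_⟩
  apply wz_congr
  intro c h5 h6
  rw [← h (q + c) (by omega) (by omega)]
  congr 1
  ring

theorem cert_exists (C : Con D) {TL : List (Fin D.n × List (Fin D.n) × Fin D.n)}
    (hTL : ∀ τ ∈ TL, ∃ G : Finset (Fin D.n), (∀ i, i ∈ τ.2.1 ↔ i ∈ G) ∧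
      ∀ s, D.TT C.N0 s τ.1 G τ.2.2) {k : ℕ} {w : List (Fin m)}
    (hno : ∀ z ∈ BX D.X, ¬ eqv k z w) : ∃ A ρ1 N1 N2, Cert C TL k w A ρ1 N1 N2 := by
  classical
  obtain ⟨A, hA⟩ := exists_A D k
  -- ρ1
  obtain ⟨ρ0, hρ0⟩ := fin_bound (ι := Fin D.n × Fin D.n)
    (P := fun p ρ => D.down p.1 p.2 → ∀ v ∈ D.WW k A p.2, v ∈ fac k (D.gz p.1 0 ρ (2 * ρ)))
    (fun p N N' hN h hd v hv => by
      have := h hd v hv
      unfold gz at this ⊢
      exact fac_mono (by push_cast; omega) (by push_cast; omega) this) (by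
      intro p
      by_cases hd : D.down p.1 p.2
      · obtain ⟨u, hu⟩ := down_agr hd A
        refine ⟨u.natAbs + A, fun _ v hv => ?_⟩
        unfold gz
        refine WW_of_agr hu ?_ ?_ hv
        · rw [Nat.cast_add]
          omega
        · rw [Nat.cast_mul, Nat.cast_add]
          omega
      · exact ⟨0, fun h => absurd h hd⟩)
  obtain ⟨ρ1, hρ1⟩ : ∃ ρ1, ρ1 = ρ0 + C.K0 + k := ⟨_, rfl⟩
  have hρ : ∀ l i, D.down l i → ∀ v ∈ D.WW k A i, v ∈ fac k (D.gz l 0 ρ1 (2 * ρ1)) := by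
    intro l i hd v hv
    have := hρ0 (l, i) hd v hv
    unfold gz at this ⊢
    exact fac_mono (by push_cast; omega) (by push_cast; omega) this
  -- the distance
  obtain ⟨d, hd⟩ := fin_bound (ι := Finset (Fin D.n))
    (P := fun G d => ∀ y ∈ D.X,
      (∀ i, i ∉ G → ∀ u : ℤ, -(d : ℤ) ≤ u → u ≤ d → ¬ D.occ i y u) →
      ∃ l ∈ G, ∃ u : ℤ, ∀ c : ℤ, 0 ≤ c → c < k → y c = D.x l (u + c))
    (fun G d d' hdd h y hy h2 => h y hy fun i hi u h3 h4 => h2 i hi u (by omega) (by omega))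
    (fun G => D.exists_D G k)
  -- N1
  obtain ⟨N', hN'⟩ := D.exists_cover fun _ t => t.natAbs + ρ1
  obtain ⟨N1, hN1⟩ : ∃ N1, N1 = N' + d + C.N0 + k := ⟨_, rfl⟩
  -- N2
  have hr : ∀ (l : Fin D.n) (t : ℤ), ∃ r : ℕ, t.natAbs + rho2 ρ1 N1 ≤ r ∧
      (∀ i, D.Om l i → ∀ v ∈ D.WW k A i, v ∈ fac k (wz (D.x l) t r)) ∧
      ∀ i, D.Al l i → ∀ v ∈ D.WW k A i, v ∈ fac k (wz (D.x l) (t - r) r) := by
    intro l t
    obtain ⟨r, hr⟩ := fin_bound (ι := Fin D.n)
      (P := fun i r => (D.Om l i → ∀ v ∈ D.WW k A i, v ∈ fac k (wz (D.x l) t r)) ∧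
        (D.Al l i → ∀ v ∈ D.WW k A i, v ∈ fac k (wz (D.x l) (t - r) r)))
      (fun i r r' hrr h => ⟨fun ho v hv => fac_mono le_rfl (by omega) (h.1 ho v hv),
        fun ho v hv => fac_mono (by omega) (by omega) (h.2 ho v hv)⟩) (by
        intro i
        obtain ⟨s1, hs1⟩ : ∃ r : ℕ, D.Om l i → ∀ v ∈ D.WW k A i, v ∈ fac k (wz (D.x l) t r) := by
          by_cases ho : D.Om l i
          · obtain ⟨u, h1, h2⟩ := ho A (t.natAbs + A)
            rw [Nat.cast_add] at h1
            refine ⟨u.natAbs + t.natAbs + A, fun _ v hv => WW_of_agr h2 (by omega) ?_ hv⟩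
            rw [Nat.cast_add, Nat.cast_add]
            omega
          · exact ⟨0, fun h => absurd h ho⟩
        obtain ⟨s2, hs2⟩ : ∃ r : ℕ, D.Al l i → ∀ v ∈ D.WW k A i,
            v ∈ fac k (wz (D.x l) (t - r) r) := by
          by_cases ho : D.Al l i
          · obtain ⟨u, h1, h2⟩ := ho A (t.natAbs + A)
            rw [Nat.cast_add] at h1
            refine ⟨u.natAbs + t.natAbs + A, fun _ v hv => WW_of_agr h2 ?_ ?_ hv⟩
            · rw [Nat.cast_add, Nat.cast_add]
              omega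
            · rw [Nat.cast_add, Nat.cast_add]
              omega
          · exact ⟨0, fun h => absurd h ho⟩
        exact ⟨s1 + s2, fun ho v hv => fac_mono le_rfl (by push_cast; omega) (hs1 ho v hv),
          fun ho v hv => fac_mono (by push_cast; omega) (by push_cast; omega) (hs2 ho v hv)⟩)
    refine ⟨r + t.natAbs + rho2 ρ1 N1, by omega, fun i ho v hv => ?_, fun i ho v hv => ?_⟩
    · exact fac_mono le_rfl (by omega) ((hr i).1 ho v hv)
    · exact fac_mono (by omega) (by omega) ((hr i).2 ho v hv)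
  choose r hr1 hr2 hr3 using hr
  obtain ⟨N2, hN2⟩ := D.exists_cover r
  refine ⟨A, ρ1, N1, N2, ⟨by omega, ?_, hρ, ?_, ?_, fun N _ z _ hz => hno z hz, ?_⟩⟩
  · intro l v hv
    unfold gz at hv
    rw [mem_fac_wz] at hv
    obtain ⟨q, -, -, rfl⟩ := hv
    exact hA l q
  · intro z hz1 hz2
    rw [mem_allW] at hz1
    obtain ⟨y, hy, u, hu⟩ := hz2
    obtain ⟨l, t, h1, h2, h3, h4⟩ := hN' (sh (u + N1 + ρ1) y) (D.hX.sh_mem _ hy)
    refine ⟨l, (t + N1).toNat, by omega, ?_⟩
    have hd := dst_eq (t + N1).toNat N1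
    rw [show (((t + N1).toNat : ℕ) : ℤ) - N1 = t by omega] at hd
    rw [← hu, hz1, wz_drop_take (by omega)]
    unfold gz
    apply wz_congr
    intro c h5 h6
    push_cast at h3 h6
    have h7 := h4 (c - (dst (t + N1).toNat N1 + ρ1)) (by rw [Nat.cast_add]; omega)
      (by rw [Nat.cast_add]; omega)
    rw [sh_apply] at h7
    rw [show u + ((N1 - dst (t + N1).toNat N1 : ℕ) : ℤ) + c =
      c - (dst (t + N1).toNat N1 + ρ1) + (u + N1 + ρ1) by omega, h7]
    congr 1
    rw [Nat.cast_add, Nat.cast_add]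
    omega
  · intro z hz1 hz2
    rw [mem_allW] at hz1
    obtain ⟨y, hy, u, hu⟩ := hz2
    obtain ⟨l, t, h1, h2, h3, h4⟩ := hN2 (sh (u + N2) y) (D.hX.sh_mem _ hy)
    have hd := dst_eq (t + N2).toNat N2
    rw [show (((t + N2).toNat : ℕ) : ℤ) - N2 = t by omega] at hd
    have hr1' := hr1 l t
    refine ⟨l, (t + N2).toNat, by omega, r l t, by omega, by omega, fun i ho v hv => ?_,
      fun i ho v hv => ?_, ?_⟩
    · have h5 := hr2 l t i ho v hv
      unfold gz
      rwa [show (((t + N2).toNat : ℕ) : ℤ) - N2 = t by omega]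
    · have h5 := hr3 l t i ho v hv
      unfold gz
      rwa [show (((t + N2).toNat : ℕ) : ℤ) - ((N2 + r l t : ℕ) : ℤ) = t - r l t by
        rw [Nat.cast_add]; omega]
    · rw [← hu, hz1, wz_drop_take (by omega)]
      unfold gz
      apply wz_congr
      intro c h5 h6
      push_cast at h6
      have h7 := h4 (c - r l t) (by omega) (by omega)
      rw [sh_apply] at h7
      rw [show u + ((N2 - r l t : ℕ) : ℤ) + c = c - r l t + (u + N2) by omega, h7]
      congr 1
      rw [Nat.cast_add]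
      omega
  · rintro ⟨l1, Gl, l2⟩ hτ a1 ha1 r1 hr1' a2 ha2 r2 hr2' hd1 hd2 ⟨f1, f2, f3, f4, f5, f6, f7⟩
    obtain ⟨G, hG, hT⟩ := hTL _ hτ
    simp only at hG hT f2 f3 f4 f5 f6 f7
    unfold rho2 at hd1 hd2
    have hd1' := dst_eq a1 N2
    have hd2' := dst_eq a2 N2
    obtain ⟨t1, ht1⟩ : ∃ t1 : ℤ, t1 = (a1 : ℤ) - N2 := ⟨_, rfl⟩
    obtain ⟨t2, ht2⟩ : ∃ t2 : ℤ, t2 = (a2 : ℤ) - N2 := ⟨_, rfl⟩
    rw [← ht1] at hd1'
    rw [← ht2] at hd2'
    obtain ⟨s, hs⟩ : ∃ s : ℕ, s = 4 * N2 + A + k + d + C.N0 := ⟨_, rfl⟩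
    obtain ⟨j, τ1, τ2, g1, g2, g3, g4, g5⟩ := hT s
    obtain ⟨n, hn⟩ : ∃ n : ℕ, (n : ℤ) = τ2 + t2 - (τ1 + t1) :=
      ⟨(τ2 + t2 - (τ1 + t1)).toNat, by omega⟩
    -- the word
    have hzB : wz (D.x j) (τ1 + t1) n ∈ BX D.X := wz_mem_BX (D.hx j) _ _
    refine hno _ hzB (Or.inr ⟨?_, f1, ?_, ?_, ?_, ?_⟩)
    · rw [wz_length]
      omega
    · rw [wz_take (by omega), f2]
      unfold gz
      rw [← ht1]
      apply wz_congr
      intro c h1 h2
      rw [← g2 (t1 + c) (by omega) (by omega)]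
      congr 1
      ring
    · rw [wz_length, wz_drop (by omega), f3]
      unfold gz
      apply wz_congr
      intro c h1 h2
      rw [← g3 _ (by push_cast; omega) (by push_cast; omega)]
      congr 1
      push_cast
      omega
    · intro v hv
      rw [mem_fac_wz] at hv
      obtain ⟨q, h1, h2, rfl⟩ := hv
      by_cases c1 : q + k ≤ τ1 + t1 + r1
      · apply f5
        unfold gz
        rw [← ht1, mem_fac_wz]
        refine ⟨q - τ1, by omega, by omega, ?_⟩
        apply wz_congr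
        intro c h3 h4
        rw [← g2 _ (by omega) (by omega)]
        congr 1
        ring
      by_cases c2 : τ2 + t2 - r2 ≤ q
      · apply f6
        unfold gz
        rw [show ((a2 : ℤ) - ((N2 + r2 : ℕ) : ℤ)) = t2 - r2 by push_cast; omega, mem_fac_wz]
        refine ⟨q - τ2, by omega, by omega, ?_⟩
        apply wz_congr
        intro c h3 h4
        rw [← g3 _ (by omega) (by omega)]
        congr 1
        ring
      obtain ⟨l, hl, u, hu⟩ := hd G (sh q (D.x j)) (D.hX.sh_mem _ (D.hx j)) (by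
        intro i hi u h3 h4 ho
        refine hi (g4 i (u + q) (by omega) (by omega) fun c h5 h6 => ?_)
        rw [← ho c h5 h6, sh_apply]
        congr 1
        ring)
      refine f7 l ((hG l).2 hl) _ ?_
      have : wz (D.x j) q k = wz (D.x l) u k := by
        apply wz_congr
        intro c h3 h4
        rw [← hu c h3 h4, sh_apply, add_comm]
      rw [this]
      exact hA l u
    · intro v hv
      rcases f4 v hv with h1 | h1 | ⟨i, hi, h1⟩
      · unfold gz at h1
        rw [← ht1, mem_fac_wz] at h1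
        rw [mem_fac_wz]
        obtain ⟨q, h2, h3, rfl⟩ := h1
        refine ⟨τ1 + q, by omega, by omega, ?_⟩
        apply wz_congr
        intro c h4 h5
        rw [← g2 _ (by omega) (by omega)]
        congr 1
        ring
      · unfold gz at h1
        rw [show ((a2 : ℤ) - ((N2 + r2 : ℕ) : ℤ)) = t2 - r2 by push_cast; omega,
          mem_fac_wz] at h1
        rw [mem_fac_wz]
        obtain ⟨q, h2, h3, rfl⟩ := h1
        refine ⟨τ2 + q, by omega, by omega, ?_⟩
        apply wz_congr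
        intro c h4 h5
        rw [← g3 _ (by omega) (by omega)]
        congr 1
        ring
      · obtain ⟨u, h2, h3, h4⟩ := g5 i ((hG i).1 hi)
        refine WW_of_agr (agr_mono (s' := A) (by omega) h4) (by omega) (by omega) h1

end Str

end Pool.Agent.R626.QM
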