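import Pool.Agent.R626.QM.Cmpt

/-!
Decidability of the certificate; the set of non-realised words is enumerable.
-/

set_option autoImplicit false
set_option linter.unusedSectionVars false

namespace Pool.Agent.R626.QM

open Encodable Pool.Agent.Helper446 Pool.Agent.Helper446.Defs Pool.Agent.Helper446.Oracle
open Pool.Agent.Y545.HM
open Pool.Agent.R626.VZ (dp_of_eq dp_all_mem dp_imp dp_iff)

namespace Str

variable {m : ℕ} {D : Str m} {α : Type*} [Primcodable α]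

theorem computable_dst {a b : α → ℕ} (ha : Computable a) (hb : Computable b) :
    Computable fun x => dst (a x) (b x) := by
  unfold dst
  fun_prop

theorem computable_rho2 {a b : α → ℕ} (ha : Computable a) (hb : Computable b) :
    Computable fun x => rho2 (a x) (b x) := by
  unfold rho2
  fun_prop

theorem computable_WW (hB : ComputablePred fun w : List (Fin m) => w ∈ BX D.X)
    {k A : α → ℕ} {i : α → Fin D.n} (hk : Computable k) (hA : Computable A)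
    (hi : Computable i) : Computable fun x => D.WW (k x) (A x) (i x) := by
  unfold WW
  exact computable_fac hk (computable_gz hB hi (by fun_prop) hA (by fun_prop))

theorem dp_Mt (hB : ComputablePred fun w : List (Fin m) => w ∈ BX D.X)
    {k A N2 a1 r1 a2 r2 : α → ℕ} {w : α → List (Fin m)}
    {τ : α → Fin D.n × List (Fin D.n) × Fin D.n} (hk : Computable k) (hw : Computable w)
    (hA : Computable A) (hN2 : Computable N2) (hτ : Computable τ) (ha1 : Computable a1)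
    (hr1 : Computable r1) (ha2 : Computable a2) (hr2 : Computable r2) :
    DP ∅ fun x => D.Mt (k x) (w x) (A x) (N2 x) (τ x) (a1 x) (r1 x) (a2 x) (r2 x) := by
  unfold Mt
  have hf1 : Computable fun x => fac (k x) (D.gz (τ x).1 (a1 x) (N2 x) (r1 x)) :=
    computable_fac hk (computable_gz hB (by fun_prop) ha1 hN2 hr1)
  have hf2 : Computable fun x => fac (k x) (D.gz (τ x).2.2 (a2 x) (N2 x + r2 x) (r2 x)) :=
    computable_fac hk (computable_gz hB (by fun_prop) ha2 (by fun_prop) hr2)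
  have hfw := computable_fac hk hw
  refine DP.and (dp_le hk (by fun_prop)) (DP.and (dp_eq (computable_take hk hw)
    (computable_gz hB (by fun_prop) ha1 hN2 hk)) (DP.and (dp_eq (computable_drop (by fun_prop) hw)
    (computable_gz hB (by fun_prop) ha2 (by fun_prop) hk)) (DP.and ?_ (DP.and
    (dp_sub hf1 hfw) (DP.and (dp_sub hf2 hfw) ?_)))))
  · refine dp_all_mem (p := fun x (v : List (Fin m)) =>
      v ∈ fac (k x) (D.gz (τ x).1 (a1 x) (N2 x) (r1 x)) ∨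
      v ∈ fac (k x) (D.gz (τ x).2.2 (a2 x) (N2 x + r2 x) (r2 x)) ∨
      ∃ i ∈ (τ x).2.1, v ∈ D.WW (k x) (A x) i) ?_ hfw
    refine DP.or (dp_mem (by fun_prop) (hf1.comp Computable.fst))
      (DP.or (dp_mem (by fun_prop) (hf2.comp Computable.fst)) ?_)
    refine dp_ex_mem (p := fun (y : α × List (Fin m)) (i : Fin D.n) =>
      y.2 ∈ D.WW (k y.1) (A y.1) i) ?_ (by fun_prop)
    exact dp_mem (by fun_prop) (computable_WW hB (by fun_prop) (by fun_prop) (by fun_prop))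
  · refine dp_all_mem (p := fun x (i : Fin D.n) => ∀ v ∈ D.WW (k x) (A x) i, v ∈ fac (k x) (w x))
      ?_ (by fun_prop)
    exact dp_sub (computable_WW hB (by fun_prop) (by fun_prop) (by fun_prop))
      (hfw.comp Computable.fst)

abbrev Q (m : ℕ) := ℕ × List (Fin m) × ℕ × ℕ × ℕ × ℕ

/-- the innermost condition -/
def P0 (q : Q m) (τ : Fin D.n × List (Fin D.n) × Fin D.n) (a1 r1 a2 r2 : ℕ) : Prop :=
  dst a1 q.2.2.2.2.2 + rho2 q.2.2.2.1 q.2.2.2.2.1 ≤ r1 →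
  dst a2 q.2.2.2.2.2 + rho2 q.2.2.2.1 q.2.2.2.2.1 ≤ r2 →
  ¬ D.Mt q.1 q.2.1 q.2.2.1 q.2.2.2.2.2 τ a1 r1 a2 r2

def P1 (q : Q m) (τ : Fin D.n × List (Fin D.n) × Fin D.n) (a1 r1 a2 : ℕ) : Prop :=
  ∀ r2, r2 < q.2.2.2.2.2 + 1 → P0 q τ a1 r1 a2 r2

def P2 (q : Q m) (τ : Fin D.n × List (Fin D.n) × Fin D.n) (a1 r1 : ℕ) : Prop :=
  ∀ a2, a2 < 2 * q.2.2.2.2.2 + 1 → P1 q τ a1 r1 a2

def P3 (q : Q m) (τ : Fin D.n × List (Fin D.n) × Fin D.n) (a1 : ℕ) : Prop :=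
  ∀ r1, r1 < q.2.2.2.2.2 + 1 → P2 q τ a1 r1

def P4 (q : Q m) (τ : Fin D.n × List (Fin D.n) × Fin D.n) : Prop :=
  ∀ a1, a1 < 2 * q.2.2.2.2.2 + 1 → P3 q τ a1

theorem dp_P0 (hB : ComputablePred fun w : List (Fin m) => w ∈ BX D.X) :
    DP ∅ fun y : Q m × (Fin D.n × List (Fin D.n) × Fin D.n) × ℕ × ℕ × ℕ × ℕ =>
      P0 y.1 y.2.1 y.2.2.1 y.2.2.2.1 y.2.2.2.2.1 y.2.2.2.2.2 := by
  have hd1 : Computable fun y : Q m × (Fin D.n × List (Fin D.n) × Fin D.n) × ℕ × ℕ × ℕ × ℕ =>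
      dst y.2.2.1 y.1.2.2.2.2.2 := computable_dst (by fun_prop) (by fun_prop)
  have hd2 : Computable fun y : Q m × (Fin D.n × List (Fin D.n) × Fin D.n) × ℕ × ℕ × ℕ × ℕ =>
      dst y.2.2.2.2.1 y.1.2.2.2.2.2 := computable_dst (by fun_prop) (by fun_prop)
  have hrho : Computable fun y : Q m × (Fin D.n × List (Fin D.n) × Fin D.n) × ℕ × ℕ × ℕ × ℕ =>
      rho2 y.1.2.2.2.1 y.1.2.2.2.2.1 := computable_rho2 (by fun_prop) (by fun_prop)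
  have e1 : Computable fun y : Q m × (Fin D.n × List (Fin D.n) × Fin D.n) × ℕ × ℕ × ℕ × ℕ =>
      dst y.2.2.1 y.1.2.2.2.2.2 + rho2 y.1.2.2.2.1 y.1.2.2.2.2.1 :=
    Primrec.nat_add.to_comp.comp hd1 hrho
  have e2 : Computable fun y : Q m × (Fin D.n × List (Fin D.n) × Fin D.n) × ℕ × ℕ × ℕ × ℕ =>
      dst y.2.2.2.2.1 y.1.2.2.2.2.2 + rho2 y.1.2.2.2.1 y.1.2.2.2.2.1 :=
    Primrec.nat_add.to_comp.comp hd2 hrho
  have e3 : DP ∅ fun y : Q m × (Fin D.n × List (Fin D.n) × Fin D.n) × ℕ × ℕ × ℕ × ℕ =>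
      dst y.2.2.1 y.1.2.2.2.2.2 + rho2 y.1.2.2.2.1 y.1.2.2.2.2.1 ≤ y.2.2.2.1 :=
    dp_le e1 (Computable.fst.comp (Computable.snd.comp (Computable.snd.comp Computable.snd)))
  have e4 : DP ∅ fun y : Q m × (Fin D.n × List (Fin D.n) × Fin D.n) × ℕ × ℕ × ℕ × ℕ =>
      dst y.2.2.2.2.1 y.1.2.2.2.2.2 + rho2 y.1.2.2.2.1 y.1.2.2.2.2.1 ≤ y.2.2.2.2.2 :=
    dp_le e2 (Computable.snd.comp (Computable.snd.comp (Computable.snd.comp
      (Computable.snd.comp Computable.snd))))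
  have e5 : DP ∅ fun y : Q m × (Fin D.n × List (Fin D.n) × Fin D.n) × ℕ × ℕ × ℕ × ℕ =>
      D.Mt y.1.1 y.1.2.1 y.1.2.2.1 y.1.2.2.2.2.2 y.2.1 y.2.2.1 y.2.2.2.1 y.2.2.2.2.1
        y.2.2.2.2.2 := by
    have g1 : Computable fun y : Q m × (Fin D.n × List (Fin D.n) × Fin D.n) × ℕ × ℕ × ℕ × ℕ =>
      y.1.1 := by fun_prop
    have g2 : Computable fun y : Q m × (Fin D.n × List (Fin D.n) × Fin D.n) × ℕ × ℕ × ℕ × ℕ =>
      y.1.2.1 := by fun_prop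
    have g3 : Computable fun y : Q m × (Fin D.n × List (Fin D.n) × Fin D.n) × ℕ × ℕ × ℕ × ℕ =>
      y.1.2.2.1 := by fun_prop
    have g4 : Computable fun y : Q m × (Fin D.n × List (Fin D.n) × Fin D.n) × ℕ × ℕ × ℕ × ℕ =>
      y.1.2.2.2.2.2 := by fun_prop
    have g5 : Computable fun y : Q m × (Fin D.n × List (Fin D.n) × Fin D.n) × ℕ × ℕ × ℕ × ℕ =>
      y.2.1 := by fun_prop
    have g6 : Computable fun y : Q m × (Fin D.n × List (Fin D.n) × Fin D.n) × ℕ × ℕ × ℕ × ℕ =>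
      y.2.2.1 := by fun_prop
    have g7 : Computable fun y : Q m × (Fin D.n × List (Fin D.n) × Fin D.n) × ℕ × ℕ × ℕ × ℕ =>
      y.2.2.2.1 := by fun_prop
    have g8 : Computable fun y : Q m × (Fin D.n × List (Fin D.n) × Fin D.n) × ℕ × ℕ × ℕ × ℕ =>
      y.2.2.2.2.1 := by fun_prop
    have g9 : Computable fun y : Q m × (Fin D.n × List (Fin D.n) × Fin D.n) × ℕ × ℕ × ℕ × ℕ =>
      y.2.2.2.2.2 := by fun_prop
    exact dp_Mt hB g1 g2 g3 g4 g5 g6 g7 g8 g9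
  exact dp_imp e3 (dp_imp e4 e5.not)

theorem dp_P1 (hB : ComputablePred fun w : List (Fin m) => w ∈ BX D.X) :
    DP ∅ fun y : Q m × (Fin D.n × List (Fin D.n) × Fin D.n) × ℕ × ℕ × ℕ =>
      P1 y.1 y.2.1 y.2.2.1 y.2.2.2.1 y.2.2.2.2 := by
  refine DP.all_lt (p := fun (y : Q m × (Fin D.n × List (Fin D.n) × Fin D.n) × ℕ × ℕ × ℕ) r2 =>
    P0 y.1 y.2.1 y.2.2.1 y.2.2.2.1 y.2.2.2.2 r2) ?_ (by fun_prop)
  exact (dp_P0 hB).comp (f := fun x : (Q m × (Fin D.n × List (Fin D.n) × Fin D.n) × ℕ × ℕ × ℕ) ×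
    ℕ => (x.1.1, x.1.2.1, x.1.2.2.1, x.1.2.2.2.1, x.1.2.2.2.2, x.2)) (by fun_prop)

theorem dp_P2 (hB : ComputablePred fun w : List (Fin m) => w ∈ BX D.X) :
    DP ∅ fun y : Q m × (Fin D.n × List (Fin D.n) × Fin D.n) × ℕ × ℕ =>
      P2 y.1 y.2.1 y.2.2.1 y.2.2.2 := by
  refine DP.all_lt (p := fun (y : Q m × (Fin D.n × List (Fin D.n) × Fin D.n) × ℕ × ℕ) a2 =>
    P1 y.1 y.2.1 y.2.2.1 y.2.2.2 a2) ?_ (by fun_prop)
  exact (dp_P1 hB).comp (f := fun x : (Q m × (Fin D.n × List (Fin D.n) × Fin D.n) × ℕ × ℕ) ×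
    ℕ => (x.1.1, x.1.2.1, x.1.2.2.1, x.1.2.2.2, x.2)) (by fun_prop)

theorem dp_P3 (hB : ComputablePred fun w : List (Fin m) => w ∈ BX D.X) :
    DP ∅ fun y : Q m × (Fin D.n × List (Fin D.n) × Fin D.n) × ℕ =>
      P3 y.1 y.2.1 y.2.2 := by
  refine DP.all_lt (p := fun (y : Q m × (Fin D.n × List (Fin D.n) × Fin D.n) × ℕ) r1 =>
    P2 y.1 y.2.1 y.2.2 r1) ?_ (by fun_prop)
  exact (dp_P2 hB).comp (f := fun x : (Q m × (Fin D.n × List (Fin D.n) × Fin D.n) × ℕ) ×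
    ℕ => (x.1.1, x.1.2.1, x.1.2.2, x.2)) (by fun_prop)

theorem dp_P4 (hB : ComputablePred fun w : List (Fin m) => w ∈ BX D.X) :
    DP ∅ fun y : Q m × (Fin D.n × List (Fin D.n) × Fin D.n) => P4 y.1 y.2 := by
  refine DP.all_lt (p := fun (y : Q m × (Fin D.n × List (Fin D.n) × Fin D.n)) a1 =>
    P3 y.1 y.2 a1) ?_ (by fun_prop)
  exact (dp_P3 hB).comp (f := fun x : (Q m × (Fin D.n × List (Fin D.n) × Fin D.n)) ×
    ℕ => (x.1.1, x.1.2, x.2)) (by fun_prop)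

theorem dp_c8 (hB : ComputablePred fun w : List (Fin m) => w ∈ BX D.X)
    (TL : List (Fin D.n × List (Fin D.n) × Fin D.n)) :
    DP ∅ fun q : Q m => ∀ τ ∈ TL, P4 q τ :=
  dp_all_mem (p := fun (q : Q m) τ => P4 q τ) (dp_P4 hB) (Computable.const TL)

theorem dp_cert (hB : ComputablePred fun w : List (Fin m) => w ∈ BX D.X) (C : Con D)
    (TL : List (Fin D.n × List (Fin D.n) × Fin D.n)) :
    DP ∅ fun q : Q m => Cert C TL q.1 q.2.1 q.2.2.1 q.2.2.2.1 q.2.2.2.2.1 q.2.2.2.2.2 := by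
  -- c2
  have h2 : DP ∅ fun q : Q m => ∀ l, ∀ v ∈ fac q.1 (D.gz l 0 q.2.2.2.2.1
      (2 * q.2.2.2.2.1 + q.1)), v ∈ D.WW q.1 q.2.2.1 l := by
    refine dp_all_fin (p := fun (q : Q m) l => ∀ v ∈ fac q.1 (D.gz l 0 q.2.2.2.2.1
      (2 * q.2.2.2.2.1 + q.1)), v ∈ D.WW q.1 q.2.2.1 l) ?_
    exact dp_sub (computable_fac (by fun_prop) (computable_gz hB (by fun_prop) (by fun_prop)
      (by fun_prop) (by fun_prop))) (computable_WW hB (by fun_prop) (by fun_prop) (by fun_prop))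
  have h3 : DP ∅ fun q : Q m => ∀ l i, D.down l i → ∀ v ∈ D.WW q.1 q.2.2.1 i,
      v ∈ fac q.1 (D.gz l 0 q.2.2.2.1 (2 * q.2.2.2.1)) := by
    refine dp_all_fin (p := fun (q : Q m) l => ∀ i, D.down l i → ∀ v ∈ D.WW q.1 q.2.2.1 i,
      v ∈ fac q.1 (D.gz l 0 q.2.2.2.1 (2 * q.2.2.2.1))) ?_
    refine dp_all_fin (p := fun (q : Q m × Fin D.n) i => D.down q.2 i →
      ∀ v ∈ D.WW q.1.1 q.1.2.2.1 i,
      v ∈ fac q.1.1 (D.gz q.2 0 q.1.2.2.2.1 (2 * q.1.2.2.2.1))) ?_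
    refine dp_imp (DP.comp (p := fun q : Fin D.n × Fin D.n => D.down q.1 q.2)
      (dp_fin _) (f := fun x : (Q m × Fin D.n) × Fin D.n => (x.1.2, x.2)) (by fun_prop)) ?_
    exact dp_sub (computable_WW hB (by fun_prop) (by fun_prop) (by fun_prop))
      (computable_fac (by fun_prop) (computable_gz hB (by fun_prop) (by fun_prop)
      (by fun_prop) (by fun_prop)))
  have h4 : DP ∅ fun q : Q m => ∀ z ∈ allW m (2 * (q.2.2.2.2.1 + q.2.2.2.1) + 1), z ∈ BX D.X →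
      ∃ l, ∃ a, a < 2 * q.2.2.2.2.1 + 1 ∧
      (z.drop (q.2.2.2.2.1 - dst a q.2.2.2.2.1)).take (2 * (dst a q.2.2.2.2.1 + q.2.2.2.1) + 1) =
      D.gz l a (q.2.2.2.2.1 + dst a q.2.2.2.2.1 + q.2.2.2.1)
        (2 * (dst a q.2.2.2.2.1 + q.2.2.2.1) + 1) := by
    refine dp_all_mem (p := fun (q : Q m) z => z ∈ BX D.X →
      ∃ l, ∃ a, a < 2 * q.2.2.2.2.1 + 1 ∧
      (z.drop (q.2.2.2.2.1 - dst a q.2.2.2.2.1)).take (2 * (dst a q.2.2.2.2.1 + q.2.2.2.1) + 1) =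
      D.gz l a (q.2.2.2.2.1 + dst a q.2.2.2.2.1 + q.2.2.2.1)
        (2 * (dst a q.2.2.2.2.1 + q.2.2.2.1) + 1)) ?_ ((computable_allW m).comp (by fun_prop))
    refine dp_imp (DP.comp (dp_cp hB) (by fun_prop)) ?_
    refine dp_ex_fin (p := fun (y : Q m × List (Fin m)) (l : Fin D.n) =>
      ∃ a, a < 2 * y.1.2.2.2.2.1 + 1 ∧
      (y.2.drop (y.1.2.2.2.2.1 - dst a y.1.2.2.2.2.1)).take
        (2 * (dst a y.1.2.2.2.2.1 + y.1.2.2.2.1) + 1) =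
      D.gz l a (y.1.2.2.2.2.1 + dst a y.1.2.2.2.2.1 + y.1.2.2.2.1)
        (2 * (dst a y.1.2.2.2.2.1 + y.1.2.2.2.1) + 1)) ?_
    refine DP.ex_lt (p := fun (y : (Q m × List (Fin m)) × Fin D.n) (a : ℕ) =>
      (y.1.2.drop (y.1.1.2.2.2.2.1 - dst a y.1.1.2.2.2.2.1)).take
        (2 * (dst a y.1.1.2.2.2.2.1 + y.1.1.2.2.2.1) + 1) =
      D.gz y.2 a (y.1.1.2.2.2.2.1 + dst a y.1.1.2.2.2.2.1 + y.1.1.2.2.2.1)
        (2 * (dst a y.1.1.2.2.2.2.1 + y.1.1.2.2.2.1) + 1)) ?_ (by fun_prop)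
    have hd : Computable fun y : ((Q m × List (Fin m)) × Fin D.n) × ℕ =>
      dst y.2 y.1.1.1.2.2.2.2.1 := computable_dst (by fun_prop) (by fun_prop)
    exact dp_eq (computable_take (by fun_prop) (computable_drop (by fun_prop) (by fun_prop)))
      (computable_gz hB (by fun_prop) (by fun_prop) (by fun_prop) (by fun_prop))
  have h6 : DP ∅ fun q : Q m => ∀ z ∈ allW m (2 * q.2.2.2.2.2 + 1), z ∈ BX D.X →
      ∃ l, ∃ a, a < 2 * q.2.2.2.2.2 + 1 ∧ ∃ r, r < q.2.2.2.2.2 + 1 ∧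
      dst a q.2.2.2.2.2 + rho2 q.2.2.2.1 q.2.2.2.2.1 ≤ r ∧
      (∀ i, D.Om l i → ∀ v ∈ D.WW q.1 q.2.2.1 i, v ∈ fac q.1 (D.gz l a q.2.2.2.2.2 r)) ∧
      (∀ i, D.Al l i → ∀ v ∈ D.WW q.1 q.2.2.1 i, v ∈ fac q.1 (D.gz l a (q.2.2.2.2.2 + r) r)) ∧
      (z.drop (q.2.2.2.2.2 - r)).take (2 * r + 1) =
        D.gz l a (q.2.2.2.2.2 + r) (2 * r + 1) := by
    refine dp_all_mem (p := fun (q : Q m) z => z ∈ BX D.X →
      ∃ l, ∃ a, a < 2 * q.2.2.2.2.2 + 1 ∧ ∃ r, r < q.2.2.2.2.2 + 1 ∧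
      dst a q.2.2.2.2.2 + rho2 q.2.2.2.1 q.2.2.2.2.1 ≤ r ∧
      (∀ i, D.Om l i → ∀ v ∈ D.WW q.1 q.2.2.1 i, v ∈ fac q.1 (D.gz l a q.2.2.2.2.2 r)) ∧
      (∀ i, D.Al l i → ∀ v ∈ D.WW q.1 q.2.2.1 i, v ∈ fac q.1 (D.gz l a (q.2.2.2.2.2 + r) r)) ∧
      (z.drop (q.2.2.2.2.2 - r)).take (2 * r + 1) =
        D.gz l a (q.2.2.2.2.2 + r) (2 * r + 1)) ?_ ((computable_allW m).comp (by fun_prop))
    refine dp_imp (DP.comp (dp_cp hB) (by fun_prop)) ?_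
    refine dp_ex_fin (p := fun (y : Q m × List (Fin m)) (l : Fin D.n) =>
      ∃ a, a < 2 * y.1.2.2.2.2.2 + 1 ∧ ∃ r, r < y.1.2.2.2.2.2 + 1 ∧
      dst a y.1.2.2.2.2.2 + rho2 y.1.2.2.2.1 y.1.2.2.2.2.1 ≤ r ∧
      (∀ i, D.Om l i → ∀ v ∈ D.WW y.1.1 y.1.2.2.1 i,
        v ∈ fac y.1.1 (D.gz l a y.1.2.2.2.2.2 r)) ∧
      (∀ i, D.Al l i → ∀ v ∈ D.WW y.1.1 y.1.2.2.1 i,
        v ∈ fac y.1.1 (D.gz l a (y.1.2.2.2.2.2 + r) r)) ∧
      (y.2.drop (y.1.2.2.2.2.2 - r)).take (2 * r + 1) =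
        D.gz l a (y.1.2.2.2.2.2 + r) (2 * r + 1)) ?_
    refine DP.ex_lt (p := fun (y : (Q m × List (Fin m)) × Fin D.n) (a : ℕ) =>
      ∃ r, r < y.1.1.2.2.2.2.2 + 1 ∧
      dst a y.1.1.2.2.2.2.2 + rho2 y.1.1.2.2.2.1 y.1.1.2.2.2.2.1 ≤ r ∧
      (∀ i, D.Om y.2 i → ∀ v ∈ D.WW y.1.1.1 y.1.1.2.2.1 i,
        v ∈ fac y.1.1.1 (D.gz y.2 a y.1.1.2.2.2.2.2 r)) ∧
      (∀ i, D.Al y.2 i → ∀ v ∈ D.WW y.1.1.1 y.1.1.2.2.1 i,
        v ∈ fac y.1.1.1 (D.gz y.2 a (y.1.1.2.2.2.2.2 + r) r)) ∧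
      (y.1.2.drop (y.1.1.2.2.2.2.2 - r)).take (2 * r + 1) =
        D.gz y.2 a (y.1.1.2.2.2.2.2 + r) (2 * r + 1)) ?_ (by fun_prop)
    refine DP.ex_lt (p := fun (y : ((Q m × List (Fin m)) × Fin D.n) × ℕ) (r : ℕ) =>
      dst y.2 y.1.1.1.2.2.2.2.2 + rho2 y.1.1.1.2.2.2.1 y.1.1.1.2.2.2.2.1 ≤ r ∧
      (∀ i, D.Om y.1.2 i → ∀ v ∈ D.WW y.1.1.1.1 y.1.1.1.2.2.1 i,
        v ∈ fac y.1.1.1.1 (D.gz y.1.2 y.2 y.1.1.1.2.2.2.2.2 r)) ∧
      (∀ i, D.Al y.1.2 i → ∀ v ∈ D.WW y.1.1.1.1 y.1.1.1.2.2.1 i,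
        v ∈ fac y.1.1.1.1 (D.gz y.1.2 y.2 (y.1.1.1.2.2.2.2.2 + r) r)) ∧
      (y.1.1.2.drop (y.1.1.1.2.2.2.2.2 - r)).take (2 * r + 1) =
        D.gz y.1.2 y.2 (y.1.1.1.2.2.2.2.2 + r) (2 * r + 1)) ?_ (by fun_prop)
    have hd : Computable fun y : (((Q m × List (Fin m)) × Fin D.n) × ℕ) × ℕ =>
      dst y.1.2 y.1.1.1.1.2.2.2.2.2 := computable_dst (by fun_prop) (by fun_prop)
    have hrho : Computable fun y : (((Q m × List (Fin m)) × Fin D.n) × ℕ) × ℕ =>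
      rho2 y.1.1.1.1.2.2.2.1 y.1.1.1.1.2.2.2.2.1 := computable_rho2 (by fun_prop) (by fun_prop)
    refine DP.and (dp_le (by fun_prop) (by fun_prop)) (DP.and ?_ (DP.and ?_ ?_))
    · refine dp_all_fin (p := fun (y : (((Q m × List (Fin m)) × Fin D.n) × ℕ) × ℕ)
        (i : Fin D.n) => D.Om y.1.1.2 i → ∀ v ∈ D.WW y.1.1.1.1.1 y.1.1.1.1.2.2.1 i,
        v ∈ fac y.1.1.1.1.1 (D.gz y.1.1.2 y.1.2 y.1.1.1.1.2.2.2.2.2 y.2)) ?_
      refine dp_imp (DP.comp (p := fun q : Fin D.n × Fin D.n => D.Om q.1 q.2)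
        (dp_fin _) (f := fun x : ((((Q m × List (Fin m)) × Fin D.n) × ℕ) × ℕ) × Fin D.n =>
          (x.1.1.1.2, x.2)) (by fun_prop)) ?_
      exact dp_sub (computable_WW hB (by fun_prop) (by fun_prop) (by fun_prop))
        (computable_fac (by fun_prop) (computable_gz hB (by fun_prop) (by fun_prop)
        (by fun_prop) (by fun_prop)))
    · refine dp_all_fin (p := fun (y : (((Q m × List (Fin m)) × Fin D.n) × ℕ) × ℕ)
        (i : Fin D.n) => D.Al y.1.1.2 i → ∀ v ∈ D.WW y.1.1.1.1.1 y.1.1.1.1.2.2.1 i,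
        v ∈ fac y.1.1.1.1.1 (D.gz y.1.1.2 y.1.2 (y.1.1.1.1.2.2.2.2.2 + y.2) y.2)) ?_
      refine dp_imp (DP.comp (p := fun q : Fin D.n × Fin D.n => D.Al q.1 q.2)
        (dp_fin _) (f := fun x : ((((Q m × List (Fin m)) × Fin D.n) × ℕ) × ℕ) × Fin D.n =>
          (x.1.1.1.2, x.2)) (by fun_prop)) ?_
      exact dp_sub (computable_WW hB (by fun_prop) (by fun_prop) (by fun_prop))
        (computable_fac (by fun_prop) (computable_gz hB (by fun_prop) (by fun_prop)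
        (by fun_prop) (by fun_prop)))
    · exact dp_eq (computable_take (by fun_prop) (computable_drop (by fun_prop) (by fun_prop)))
        (computable_gz hB (by fun_prop) (by fun_prop) (by fun_prop) (by fun_prop))
  have h7 : DP ∅ fun q : Q m => ∀ N, N < 4 * q.2.2.2.2.2 + 1 → ∀ z ∈ allW m N, z ∈ BX D.X →
      ¬ eqv q.1 z q.2.1 := by
    refine DP.all_lt (p := fun (q : Q m) N => ∀ z ∈ allW m N, z ∈ BX D.X → ¬ eqv q.1 z q.2.1)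
      ?_ (by fun_prop)
    refine dp_all_mem (p := fun (q : Q m × ℕ) z => z ∈ BX D.X → ¬ eqv q.1.1 z q.1.2.1)
      ?_ ((computable_allW m).comp (by fun_prop))
    exact dp_imp (DP.comp (dp_cp hB) (by fun_prop))
      (DP.not (dp_eqv (by fun_prop) (by fun_prop) (by fun_prop)))
  have h8 := dp_c8 hB TL
  have h1 : DP ∅ fun q : Q m => C.K0 + q.1 ≤ q.2.2.2.1 := dp_le (by fun_prop) (by fun_prop)
  exact dp_of_eq (h1.and (h2.and (h3.and (h4.and (h6.and (h7.and h8)))))) fun q =>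
    ⟨fun ⟨a1, a2, a3, a4, a6, a7, a8⟩ => ⟨a1, a2, a3, a4, a6, a7, a8⟩,
      fun ⟨a1, a2, a3, a4, a6, a7, a8⟩ => ⟨a1, a2, a3, a4, a6, a7, a8⟩⟩

/-- non-realisation is enumerable -/
theorem re_no (hB : ComputablePred fun w : List (Fin m) => w ∈ BX D.X) :
    REPred fun p : ℕ × List (Fin m) => ∀ z ∈ BX D.X, ¬ eqv p.1 z p.2 := by
  classical
  obtain ⟨C⟩ := D.exists_con
  let TF : Finset (Fin D.n × Finset (Fin D.n) × Fin D.n) :=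
    Finset.univ.filter fun p => ∀ s, D.TT C.N0 s p.1 p.2.1 p.2.2
  let TL : List (Fin D.n × List (Fin D.n) × Fin D.n) :=
    TF.toList.map fun p => (p.1, p.2.1.toList, p.2.2)
  have hTL1 : ∀ l1 G l2, D.TT C.N0 C.S l1 G l2 → ∃ τ ∈ TL, τ.1 = l1 ∧ τ.2.2 = l2 ∧
      ∀ i, i ∈ τ.2.1 ↔ i ∈ G := by
    intro l1 G l2 h
    refine ⟨(l1, G.toList, l2), ?_, rfl, rfl, fun i => by simp⟩
    refine List.mem_map.2 ⟨(l1, G, l2), ?_, rfl⟩
    rw [Finset.mem_toList]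
    exact Finset.mem_filter.2 ⟨Finset.mem_univ _, C.hS2 l1 G l2 h⟩
  have hTL2 : ∀ τ ∈ TL, ∃ G : Finset (Fin D.n), (∀ i, i ∈ τ.2.1 ↔ i ∈ G) ∧
      ∀ s, D.TT C.N0 s τ.1 G τ.2.2 := by
    intro τ hτ
    obtain ⟨⟨l1, G, l2⟩, h1, rfl⟩ := List.mem_map.1 hτ
    rw [Finset.mem_toList] at h1
    exact ⟨G, fun i => by simp, (Finset.mem_filter.1 h1).2⟩
  apply re_of_empty
  refine (REIn.ex (S := fun (p : ℕ × List (Fin m)) (c : ℕ × ℕ × ℕ × ℕ) =>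
    Cert C TL p.1 p.2 c.1 c.2.1 c.2.2.1 c.2.2.2) ?_).of_eq ?_
  · exact ((dp_cert hB C TL).comp (f := fun x : (ℕ × List (Fin m)) × (ℕ × ℕ × ℕ × ℕ) =>
      (x.1.1, x.1.2, x.2.1, x.2.2.1, x.2.2.2.1, x.2.2.2.2)) (by fun_prop)).1
  · rintro ⟨k, w⟩
    simp only
    constructor
    · rintro ⟨c, hc⟩ z hz
      exact cert_sound hTL1 hc hz
    · intro h
      obtain ⟨A, ρ1, N1, N2, h1⟩ := cert_exists C hTL2 h
      exact ⟨(A, ρ1, N1, N2), h1⟩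

end Str

end Pool.Agent.R626.QM
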