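import Pool.Agent.R626.QM.Base

/-!
Occurrences of anchors, limits, coverings, types.
-/

set_option autoImplicit false
set_option linter.unusedSectionVars false

namespace Pool.Agent.R626.QM

variable {m : ℕ}

/-- the orbits and anchors of a subshift -/
structure Str (m : ℕ) where
  X : Set (Cfg m)
  n : ℕ
  x : Fin n → Cfg m
  h : ℕ
  hX : IsSubshift X
  hx : ∀ l, x l ∈ X
  hall : ∀ y ∈ X, ∃ l t, y = sh t (x l)
  hU : ∀ l, ∀ z ∈ ZO (x l), (∀ c : ℤ, 0 ≤ c → c < h → z c = x l c) → z = x l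
  hP : ∀ i l t, (∀ c : ℤ, 0 ≤ c → c < h → x l (t + c) = x i c) → x i ∈ ZO (x l)

theorem fin_bound {ι : Type*} [Finite ι] {P : ι → ℕ → Prop}
    (hm : ∀ a N N', N ≤ N' → P a N → P a N') (h : ∀ a, ∃ N, P a N) : ∃ N, ∀ a, P a N := by
  classical
  haveI := Fintype.ofFinite ι
  choose f hf using h
  exact ⟨Finset.univ.sup f, fun a => hm a _ _ (Finset.le_sup (Finset.mem_univ a)) (hf a)⟩

namespace Str

variable (D : Str m)

/-- the anchor of `i` occurs in `y` at `u` -/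
def occ (i : Fin D.n) (y : Cfg m) (u : ℤ) : Prop := ∀ c : ℤ, 0 ≤ c → c < D.h → y (u + c) = D.x i c

/-- `y` looks around `u` like `x i` -/
def agr (s : ℕ) (i : Fin D.n) (y : Cfg m) (u : ℤ) : Prop :=
  ∀ c : ℤ, -(s : ℤ) ≤ c → c ≤ s → y (u + c) = D.x i c

def down (l i : Fin D.n) : Prop := D.x i ∈ ZO (D.x l)

def Om (l i : Fin D.n) : Prop := ∀ s u0 : ℕ, ∃ u : ℤ, (u0 : ℤ) ≤ u ∧ D.agr s i (D.x l) u

def Al (l i : Fin D.n) : Prop := ∀ s u0 : ℕ, ∃ u : ℤ, u ≤ -(u0 : ℤ) ∧ D.agr s i (D.x l) u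

variable {D}

theorem occ_down {i l : Fin D.n} {u : ℤ} (h : D.occ i (D.x l) u) : D.down l i := D.hP i l u h

theorem down_agr {i l : Fin D.n} (h : D.down l i) (s : ℕ) : ∃ u, D.agr s i (D.x l) u := by
  obtain ⟨t, ht⟩ := h s
  refine ⟨t, fun c h1 h2 => ?_⟩
  rw [ht c h1 h2, sh_apply, add_comm]

theorem agr_occ {s : ℕ} (hs : D.h ≤ s) {i : Fin D.n} {y : Cfg m} {u : ℤ} (h : D.agr s i y u) :
    D.occ i y u := fun c h1 h2 => h c (by omega) (by omega)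

theorem agr_mono {s s' : ℕ} (hs : s' ≤ s) {i : Fin D.n} {y : Cfg m} {u : ℤ} (h : D.agr s i y u) :
    D.agr s' i y u := fun c h1 h2 => h c (by omega) (by omega)

theorem om_of_occ {i l : Fin D.n} (h : ∀ n : ℕ, ∃ u : ℤ, (n : ℤ) ≤ u ∧ D.occ i (D.x l) u) :
    D.Om l i := by
  obtain ⟨y, hy, hP⟩ := konig D.hX.1
    (P := fun n y => ∃ u : ℤ, (n : ℤ) ≤ u ∧ Agree n y (sh u (D.x l)) ∧ D.occ i (D.x l) u)
    (fun n => ⟨n, fun y z hyz ⟨u, h1, h2, h3⟩ => ⟨u, h1, hyz.symm.trans h2, h3⟩⟩)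
    (fun n y ⟨u, h1, h2, h3⟩ => ⟨u, by push_cast at h1; omega, h2.mono (by omega), h3⟩)
    (fun n => by
      obtain ⟨u, h1, h2⟩ := h n
      exact ⟨sh u (D.x l), D.hX.sh_mem u (D.hx l), u, h1, fun _ _ _ => rfl, h2⟩)
  obtain ⟨j, t, rfl⟩ := D.hall y hy
  have hocc : D.occ i (D.x j) t := by
    obtain ⟨u, -, h2, h3⟩ := hP D.h
    intro c h4 h5
    have h6 := h2 c (by omega) (by omega)
    rw [sh_apply, sh_apply] at h6
    rw [add_comm, h6, add_comm]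
    exact h3 c h4 h5
  intro s u0
  obtain ⟨u1, hu1⟩ := down_agr (occ_down hocc) s
  obtain ⟨u, h1, h2, -⟩ := hP (u0 + (u1 - t).natAbs + s)
  rw [Nat.cast_add, Nat.cast_add] at h1
  refine ⟨u + (u1 - t), by omega, fun c h3 h4 => ?_⟩
  have h5 := h2 (u1 - t + c) (by rw [Nat.cast_add, Nat.cast_add]; omega)
    (by rw [Nat.cast_add, Nat.cast_add]; omega)
  rw [sh_apply, sh_apply] at h5
  rw [← hu1 c h3 h4, show u + (u1 - t) + c = u1 - t + c + u by ring, ← h5]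
  congr 1
  ring

theorem al_of_occ {i l : Fin D.n} (h : ∀ n : ℕ, ∃ u : ℤ, u ≤ -(n : ℤ) ∧ D.occ i (D.x l) u) :
    D.Al l i := by
  obtain ⟨y, hy, hP⟩ := konig D.hX.1
    (P := fun n y => ∃ u : ℤ, u ≤ -(n : ℤ) ∧ Agree n y (sh u (D.x l)) ∧ D.occ i (D.x l) u)
    (fun n => ⟨n, fun y z hyz ⟨u, h1, h2, h3⟩ => ⟨u, h1, hyz.symm.trans h2, h3⟩⟩)
    (fun n y ⟨u, h1, h2, h3⟩ => ⟨u, by push_cast at h1; omega, h2.mono (by omega), h3⟩)
    (fun n => by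
      obtain ⟨u, h1, h2⟩ := h n
      exact ⟨sh u (D.x l), D.hX.sh_mem u (D.hx l), u, h1, fun _ _ _ => rfl, h2⟩)
  obtain ⟨j, t, rfl⟩ := D.hall y hy
  have hocc : D.occ i (D.x j) t := by
    obtain ⟨u, -, h2, h3⟩ := hP D.h
    intro c h4 h5
    have h6 := h2 c (by omega) (by omega)
    rw [sh_apply, sh_apply] at h6
    rw [add_comm, h6, add_comm]
    exact h3 c h4 h5
  intro s u0
  obtain ⟨u1, hu1⟩ := down_agr (occ_down hocc) s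
  obtain ⟨u, h1, h2, -⟩ := hP (u0 + (u1 - t).natAbs + s)
  rw [Nat.cast_add, Nat.cast_add] at h1
  refine ⟨u + (u1 - t), by omega, fun c h3 h4 => ?_⟩
  have h5 := h2 (u1 - t + c) (by rw [Nat.cast_add, Nat.cast_add]; omega)
    (by rw [Nat.cast_add, Nat.cast_add]; omega)
  rw [sh_apply, sh_apply] at h5
  rw [← hu1 c h3 h4, show u + (u1 - t) + c = u1 - t + c + u by ring, ← h5]
  congr 1
  ring

variable (D)

theorem exists_N0 : ∃ N0 : ℕ, (∀ l i (u : ℤ), (N0 : ℤ) ≤ u → D.occ i (D.x l) u → D.Om l i) ∧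
    ∀ l i (u : ℤ), u ≤ -(N0 : ℤ) → D.occ i (D.x l) u → D.Al l i := by
  classical
  obtain ⟨N, hN⟩ := fin_bound (ι := Fin D.n × Fin D.n)
    (P := fun p N => (∀ (u : ℤ), (N : ℤ) ≤ u → D.occ p.2 (D.x p.1) u → D.Om p.1 p.2) ∧
      ∀ (u : ℤ), u ≤ -(N : ℤ) → D.occ p.2 (D.x p.1) u → D.Al p.1 p.2)
    (fun p N N' hNN h => ⟨fun u hu => h.1 u (by omega), fun u hu => h.2 u (by omega)⟩) (by
      intro p
      obtain ⟨N1, h1⟩ : ∃ N1 : ℕ, ∀ (u : ℤ), (N1 : ℤ) ≤ u → D.occ p.2 (D.x p.1) u →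
          D.Om p.1 p.2 := by
        by_contra hcon
        push Not at hcon
        obtain ⟨u, -, -, h3⟩ := hcon 0
        exact h3 (om_of_occ fun n => by
          obtain ⟨u, h1, h2, -⟩ := hcon n
          exact ⟨u, h1, h2⟩)
      obtain ⟨N2, h2⟩ : ∃ N2 : ℕ, ∀ (u : ℤ), u ≤ -(N2 : ℤ) → D.occ p.2 (D.x p.1) u →
          D.Al p.1 p.2 := by
        by_contra hcon
        push Not at hcon
        obtain ⟨u, -, -, h3⟩ := hcon 0
        exact h3 (al_of_occ fun n => by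
          obtain ⟨u, h1, h2, -⟩ := hcon n
          exact ⟨u, h1, h2⟩)
      exact ⟨N1 + N2, fun u hu => h1 u (by push_cast at hu; omega),
        fun u hu => h2 u (by push_cast at hu; omega)⟩)
  exact ⟨N, fun l i => (hN (l, i)).1, fun l i => (hN (l, i)).2⟩

/-- words far from all anchors outside `G` come from `G` -/
theorem exists_D (G : Finset (Fin D.n)) (k : ℕ) : ∃ d : ℕ, ∀ y ∈ D.X,
    (∀ i, i ∉ G → ∀ u : ℤ, -(d : ℤ) ≤ u → u ≤ d → ¬ D.occ i y u) →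
    ∃ l ∈ G, ∃ u : ℤ, ∀ c : ℤ, 0 ≤ c → c < k → y c = D.x l (u + c) := by
  by_contra hcon
  push Not at hcon
  obtain ⟨y, hy, hP⟩ := konig D.hX.1
    (P := fun (d : ℕ) y => (∀ i, i ∉ G → ∀ u : ℤ, -(d : ℤ) ≤ u → u ≤ d → ¬ D.occ i y u) ∧
      ∀ l ∈ G, ∀ u : ℤ, ∃ c : ℤ, 0 ≤ c ∧ c < k ∧ y c ≠ D.x l (u + c))
    (fun d => ⟨d + D.h + k, fun y z hyz ⟨h1, h2⟩ => ⟨fun i hi u hu1 hu2 ho => h1 i hi u hu1 hu2
      fun c hc1 hc2 => by rw [hyz _ (by push_cast; omega) (by push_cast; omega)]; exact ho c hc1 hc2,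
      fun l hl u => by
        obtain ⟨c, h3, h4, h5⟩ := h2 l hl u
        exact ⟨c, h3, h4, by rwa [← hyz c (by push_cast; omega) (by push_cast; omega)]⟩⟩⟩)
    (fun d y ⟨h1, h2⟩ => ⟨fun i hi u hu1 hu2 => h1 i hi u (by push_cast; omega)
      (by push_cast; omega), h2⟩)
    (fun d => by
      obtain ⟨y, hy, h1, h2⟩ := hcon d
      exact ⟨y, hy, h1, h2⟩)
  obtain ⟨l, t, rfl⟩ := D.hall y hy
  have hl : l ∈ G := by
    by_contra hl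
    refine (hP t.natAbs).1 l hl (-t) (by omega) (by omega) fun c h1 h2 => ?_
    rw [sh_apply]
    congr 1
    ring
  obtain ⟨c, h1, h2, h3⟩ := (hP 0).2 l hl t
  exact h3 (by rw [sh_apply, add_comm])

/-- the covering lemma -/
theorem exists_cover (r : Fin D.n → ℤ → ℕ) : ∃ N : ℕ, ∀ y ∈ D.X, ∃ l, ∃ t : ℤ,
    -(N : ℤ) ≤ t ∧ t ≤ N ∧ r l t ≤ N ∧
    ∀ c : ℤ, -(r l t : ℤ) ≤ c → c ≤ r l t → y c = D.x l (t + c) := by
  by_contra hcon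
  push Not at hcon
  obtain ⟨y, hy, hP⟩ := konig D.hX.1
    (P := fun (N : ℕ) y => ∀ l, ∀ t : ℤ, -(N : ℤ) ≤ t → t ≤ N → r l t ≤ N →
      ∃ c : ℤ, -(r l t : ℤ) ≤ c ∧ c ≤ r l t ∧ y c ≠ D.x l (t + c))
    (fun N => ⟨N, fun y z hyz h l t h1 h2 h3 => by
      obtain ⟨c, h4, h5, h6⟩ := h l t h1 h2 h3
      exact ⟨c, h4, h5, by rwa [← hyz c (by omega) (by omega)]⟩⟩)
    (fun N y h l t h1 h2 h3 => h l t (by push_cast; omega) (by push_cast; omega) (by omega))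
    (fun N => by
      obtain ⟨y, hy, h1⟩ := hcon N
      exact ⟨y, hy, h1⟩)
  obtain ⟨l, t, rfl⟩ := D.hall y hy
  obtain ⟨c, -, -, h3⟩ := hP (t.natAbs + r l t) l t (by rw [Nat.cast_add]; omega)
    (by rw [Nat.cast_add]; omega) (by omega)
  exact h3 (by rw [sh_apply, add_comm])

/-- types of long words -/
def TT (N0 s : ℕ) (l1 : Fin D.n) (G : Finset (Fin D.n)) (l2 : Fin D.n) : Prop :=
  ∃ (j : Fin D.n) (τ1 τ2 : ℤ), τ1 + 2 * s ≤ τ2 ∧ D.agr s l1 (D.x j) τ1 ∧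
    D.agr s l2 (D.x j) τ2 ∧
    (∀ i (u : ℤ), τ1 + N0 ≤ u → u ≤ τ2 - N0 → D.occ i (D.x j) u → i ∈ G) ∧
    ∀ i ∈ G, ∃ u : ℤ, τ1 + s ≤ u ∧ u ≤ τ2 - s ∧ D.agr s i (D.x j) u

variable {D}

theorem TT.mono {N0 s s' : ℕ} {l1 l2 : Fin D.n} {G : Finset (Fin D.n)} (h : D.TT N0 s l1 G l2)
    (hs : s' ≤ s) : D.TT N0 s' l1 G l2 := by
  obtain ⟨j, τ1, τ2, h1, h2, h3, h4, h5⟩ := h
  refine ⟨j, τ1, τ2, by omega, agr_mono hs h2, agr_mono hs h3, h4, fun i hi => ?_⟩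
  obtain ⟨u, h6, h7, h8⟩ := h5 i hi
  exact ⟨u, by omega, by omega, agr_mono hs h8⟩

variable (D)

/-- the constants of a subshift -/
structure Con where
  N0 : ℕ
  S : ℕ
  K0 : ℕ
  hN1 : ∀ l i (u : ℤ), (N0 : ℤ) ≤ u → D.occ i (D.x l) u → D.Om l i
  hN2 : ∀ l i (u : ℤ), u ≤ -(N0 : ℤ) → D.occ i (D.x l) u → D.Al l i
  hS1 : N0 + D.h ≤ S
  hS2 : ∀ l1 G l2, D.TT N0 S l1 G l2 → ∀ s, D.TT N0 s l1 G l2
  hSK : S ≤ K0
  hK1 : ∀ l i, D.down l i → ∃ u : ℤ, -(K0 : ℤ) ≤ u - S ∧ u + S ≤ K0 ∧ D.agr S i (D.x l) u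
  hK2 : ∀ l i, D.Om l i → ∃ u : ℤ, (S : ℤ) ≤ u ∧ u + S ≤ K0 ∧ D.agr S i (D.x l) u
  hK3 : ∀ l i, D.Al l i → ∃ u : ℤ, u ≤ -(S : ℤ) ∧ -(K0 : ℤ) ≤ u - S ∧ D.agr S i (D.x l) u

theorem exists_con : Nonempty (Con D) := by
  classical
  obtain ⟨N0, hN1, hN2⟩ := D.exists_N0
  obtain ⟨S0, hS0⟩ := fin_bound (ι := Fin D.n × Finset (Fin D.n) × Fin D.n)
    (P := fun p S => D.TT N0 S p.1 p.2.1 p.2.2 → ∀ s, D.TT N0 s p.1 p.2.1 p.2.2)
    (fun p N N' hNN h hT => h (hT.mono hNN)) (by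
      intro p
      by_cases hp : ∀ s, D.TT N0 s p.1 p.2.1 p.2.2
      · exact ⟨0, fun _ => hp⟩
      · push Not at hp
        obtain ⟨s, hs⟩ := hp
        exact ⟨s, fun h => absurd h hs⟩)
  set S := S0 + N0 + D.h with hS
  have hS2 : ∀ l1 G l2, D.TT N0 S l1 G l2 → ∀ s, D.TT N0 s l1 G l2 := fun l1 G l2 h =>
    hS0 (l1, G, l2) (h.mono (by omega))
  obtain ⟨K0, hK0⟩ := fin_bound (ι := Fin D.n × Fin D.n)
    (P := fun p K0 => (D.down p.1 p.2 → ∃ u : ℤ, -(K0 : ℤ) ≤ u - S ∧ u + S ≤ K0 ∧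
        D.agr S p.2 (D.x p.1) u) ∧
      (D.Om p.1 p.2 → ∃ u : ℤ, (S : ℤ) ≤ u ∧ u + S ≤ K0 ∧ D.agr S p.2 (D.x p.1) u) ∧
      (D.Al p.1 p.2 → ∃ u : ℤ, u ≤ -(S : ℤ) ∧ -(K0 : ℤ) ≤ u - S ∧ D.agr S p.2 (D.x p.1) u))
    (fun p N N' hNN h => ⟨fun h0 => by
        obtain ⟨u, h1, h2, h3⟩ := h.1 h0
        exact ⟨u, by omega, by omega, h3⟩, fun h0 => by
        obtain ⟨u, h1, h2, h3⟩ := h.2.1 h0
        exact ⟨u, by omega, by omega, h3⟩, fun h0 => by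
        obtain ⟨u, h1, h2, h3⟩ := h.2.2 h0
        exact ⟨u, by omega, by omega, h3⟩⟩) (by
      intro p
      obtain ⟨K1, h1⟩ : ∃ K : ℕ, D.down p.1 p.2 → ∃ u : ℤ, -(K : ℤ) ≤ u - S ∧ u + S ≤ K ∧
          D.agr S p.2 (D.x p.1) u := by
        by_cases h0 : D.down p.1 p.2
        · obtain ⟨u, hu⟩ := down_agr h0 S
          exact ⟨u.natAbs + S, fun _ => ⟨u, by rw [Nat.cast_add]; omega,
            by rw [Nat.cast_add]; omega, hu⟩⟩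
        · exact ⟨0, fun h => absurd h h0⟩
      obtain ⟨K2, h2⟩ : ∃ K : ℕ, D.Om p.1 p.2 → ∃ u : ℤ, (S : ℤ) ≤ u ∧ u + S ≤ K ∧
          D.agr S p.2 (D.x p.1) u := by
        by_cases h0 : D.Om p.1 p.2
        · obtain ⟨u, hu, hu2⟩ := h0 S S
          exact ⟨u.natAbs + S, fun _ => ⟨u, hu, by rw [Nat.cast_add]; omega, hu2⟩⟩
        · exact ⟨0, fun h => absurd h h0⟩
      obtain ⟨K3, h3⟩ : ∃ K : ℕ, D.Al p.1 p.2 → ∃ u : ℤ, u ≤ -(S : ℤ) ∧ -(K : ℤ) ≤ u - S ∧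
          D.agr S p.2 (D.x p.1) u := by
        by_cases h0 : D.Al p.1 p.2
        · obtain ⟨u, hu, hu2⟩ := h0 S S
          exact ⟨u.natAbs + S, fun _ => ⟨u, hu, by rw [Nat.cast_add]; omega, hu2⟩⟩
        · exact ⟨0, fun h => absurd h h0⟩
      refine ⟨K1 + K2 + K3, fun h0 => ?_, fun h0 => ?_, fun h0 => ?_⟩
      · obtain ⟨u, h4, h5, h6⟩ := h1 h0
        exact ⟨u, by push_cast; omega, by push_cast; omega, h6⟩
      · obtain ⟨u, h4, h5, h6⟩ := h2 h0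
        exact ⟨u, by push_cast; omega, by push_cast; omega, h6⟩
      · obtain ⟨u, h4, h5, h6⟩ := h3 h0
        exact ⟨u, by push_cast; omega, by push_cast; omega, h6⟩)
  exact ⟨⟨N0, S, K0 + S, hN1, hN2, by omega, hS2, by omega, fun l i h0 => by
        obtain ⟨u, h1, h2, h3⟩ := (hK0 (l, i)).1 h0
        exact ⟨u, by push_cast; omega, by push_cast; omega, h3⟩, fun l i h0 => by
        obtain ⟨u, h1, h2, h3⟩ := (hK0 (l, i)).2.1 h0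
        exact ⟨u, by push_cast; omega, by push_cast; omega, h3⟩, fun l i h0 => by
        obtain ⟨u, h1, h2, h3⟩ := (hK0 (l, i)).2.2 h0
        exact ⟨u, by push_cast; omega, by push_cast; omega, h3⟩⟩⟩

end Str

end Pool.Agent.R626.QM
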