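import Pool.Agent.R626.QM.Aut

/-!
Subshifts, their languages, and the model-checking problem for locally testable languages.
-/

set_option autoImplicit false

namespace Pool.Agent.R626.QM

/-- The left shift. -/
def shift {m : ℕ} (x : ℤ → Fin m) : ℤ → Fin m := fun i => x (i + 1)

/-- Subshifts over the alphabet `Fin m`: closed sets `X` of bi-infinite sequences with
`shift (X) = X`. -/
def Subshift {m : ℕ} (X : Set (ℤ → Fin m)) : Prop := IsClosed X ∧ shift '' X = X

/-- `X` is quasiminimal: it has only finitely many proper subshifts. -/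
def Quasiminimal {m : ℕ} (X : Set (ℤ → Fin m)) : Prop :=
  {Y : Set (ℤ → Fin m) | Subshift Y ∧ Y ⊂ X}.Finite

/-- The finite words occurring in some point of `X`. -/
def Lang {m : ℕ} (X : Set (ℤ → Fin m)) : Set (List (Fin m)) :=
  {w | ∃ x ∈ X, ∃ u : ℤ, ∀ (i : ℕ) (h : i < w.length), w[i] = x (u + i)}

variable {m : ℕ}

theorem lang_eq (X : Set (ℤ → Fin m)) : Lang X = BX X := by
  ext w
  constructor
  · rintro ⟨x, hx, u, h⟩
    refine ⟨x, hx, u, ?_⟩
    apply List.ext_getElem?
    intro i
    rw [wz_getElem?]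
    by_cases hi : i < w.length
    · rw [if_pos hi, List.getElem?_eq_getElem hi, h i hi]
    · rw [if_neg hi, List.getElem?_eq_none (by omega)]
  · rintro ⟨x, hx, u, h⟩
    refine ⟨x, hx, u, fun i hi => ?_⟩
    have h1 : (wz x u w.length)[i]? = w[i]? := by rw [h]
    rw [wz_getElem?, if_pos hi, List.getElem?_eq_getElem hi] at h1
    exact (Option.some.inj h1).symm

theorem main {X : Set (ℤ → Fin m)} (hX : Subshift X) (hc : X.Countable) (hq : Quasiminimal X)
    (hr : ComputablePred fun w : List (Fin m) => w ∈ Lang X) :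
    ∃ f : Aut m →. Bool, Partrec f ∧
      (∀ A, ∀ b ∈ f A, (b = true ↔ ∃ w ∈ autLang A, w ∈ Lang X)) ∧
      ∀ A, LocallyTestable (autLang A) → (f A).Dom := by
  have hX' : IsSubshift X := hX
  have hfin : {Y : Set (Cfg m) | IsSubshift Y ∧ Y ⊆ X}.Finite := by
    refine (hq.union (Set.finite_singleton X)).subset ?_
    rintro Y ⟨h1, h2⟩
    by_cases h : Y = X
    · exact Or.inr h
    · exact Or.inl ⟨h1, h2.ssubset_of_ne h⟩
  obtain ⟨n, x, h, h1, h2, h3, h4⟩ := structure_thm hX' hc hfin
  let D : Str m := ⟨X, n, x, h, hX', h1, h2, h3, h4⟩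
  rw [lang_eq] at hr ⊢
  exact procedure (D := D) hr

end Pool.Agent.R626.QM
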