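import Pool.Agent.R626.QM.Sem

/-!
Words, factors, and the certificate for non-realisation.
-/

set_option autoImplicit false
set_option linter.unusedSectionVars false

namespace Pool.Agent.R626.QM

variable {m : ℕ}

/-- the word of length `n` at position `u` -/
def wz (y : Cfg m) (u : ℤ) (n : ℕ) : List (Fin m) := (List.range n).map fun i : ℕ => y (u + (i : ℤ))

@[simp] theorem wz_length (y : Cfg m) (u : ℤ) (n : ℕ) : (wz y u n).length = n := by simp [wz]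

theorem wz_getElem? (y : Cfg m) (u : ℤ) (n i : ℕ) :
    (wz y u n)[i]? = if i < n then some (y (u + i)) else none := by
  unfold wz
  by_cases h : i < n
  · rw [if_pos h, List.getElem?_map, List.getElem?_range h]
    rfl
  · rw [if_neg h, List.getElem?_eq_none]
    simpa using h

theorem wz_congr {y y' : Cfg m} {u u' : ℤ} {n : ℕ}
    (h : ∀ c : ℤ, 0 ≤ c → c < n → y (u + c) = y' (u' + c)) : wz y u n = wz y' u' n := by
  unfold wz
  apply List.map_congr_left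
  intro i hi
  exact h i (by omega) (by rw [List.mem_range] at hi; omega)

theorem wz_ptw {y y' : Cfg m} {u u' : ℤ} {n : ℕ} (h : wz y u n = wz y' u' n) (c : ℤ) (h1 : 0 ≤ c)
    (h2 : c < n) : y (u + c) = y' (u' + c) := by
  obtain ⟨i, rfl⟩ := Int.eq_ofNat_of_zero_le h1
  have h3 := congrArg (fun l => l[i]?) h
  simp only [wz_getElem?] at h3
  rw [if_pos (by omega), if_pos (by omega)] at h3
  exact Option.some.inj h3

theorem wz_drop_take {y : Cfg m} {u : ℤ} {n i k : ℕ} (h : i + k ≤ n) :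
    ((wz y u n).drop i).take k = wz y (u + i) k := by
  apply List.ext_getElem?
  intro j
  rw [List.getElem?_take, wz_getElem?]
  by_cases hj : j < k
  · rw [if_pos hj, if_pos hj, List.getElem?_drop, wz_getElem?, if_pos (by omega)]
    congr 2
    push_cast
    ring
  · rw [if_neg hj, if_neg hj]

theorem wz_take {y : Cfg m} {u : ℤ} {n k : ℕ} (h : k ≤ n) : (wz y u n).take k = wz y u k := by
  have := wz_drop_take (y := y) (u := u) (n := n) (i := 0) (k := k) (by omega)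
  simpa using this

theorem wz_drop {y : Cfg m} {u : ℤ} {n k : ℕ} (h : k ≤ n) :
    (wz y u n).drop (n - k) = wz y (u + n - k) k := by
  have h1 := wz_drop_take (y := y) (u := u) (n := n) (i := n - k) (k := k) (by omega)
  rw [List.take_of_length_le (by rw [List.length_drop, wz_length]; omega)] at h1
  rw [h1]
  congr 1
  omega

/-- the factors of length `k` -/
def fac (k : ℕ) (z : List (Fin m)) : List (List (Fin m)) :=
  (List.range (z.length + 1 - k)).map fun i => (z.drop i).take k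

theorem mem_fac {k : ℕ} {z v : List (Fin m)} :
    v ∈ fac k z ↔ ∃ i : ℕ, i + k ≤ z.length ∧ v = (z.drop i).take k := by
  unfold fac
  simp only [List.mem_map, List.mem_range]
  constructor
  · rintro ⟨i, h1, rfl⟩
    exact ⟨i, by omega, rfl⟩
  · rintro ⟨i, h1, rfl⟩
    exact ⟨i, by omega, rfl⟩

theorem mem_fac_wz {k n : ℕ} {y : Cfg m} {u : ℤ} {v : List (Fin m)} :
    v ∈ fac k (wz y u n) ↔ ∃ q : ℤ, u ≤ q ∧ q + k ≤ u + n ∧ v = wz y q k := by
  rw [mem_fac, wz_length]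
  constructor
  · rintro ⟨i, h1, rfl⟩
    exact ⟨u + i, by omega, by omega, wz_drop_take h1⟩
  · rintro ⟨q, h1, h2, rfl⟩
    refine ⟨(q - u).toNat, by omega, ?_⟩
    rw [wz_drop_take (by omega)]
    congr 1
    omega

/-- same ends and same factors -/
def eqv (k : ℕ) (z w : List (Fin m)) : Prop :=
  z = w ∨ (k ≤ z.length ∧ k ≤ w.length ∧ z.take k = w.take k ∧
    z.drop (z.length - k) = w.drop (w.length - k) ∧
    (∀ v ∈ fac k z, v ∈ fac k w) ∧ ∀ v ∈ fac k w, v ∈ fac k z)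

/-- the language -/
def BX (X : Set (Cfg m)) : Set (List (Fin m)) := {w | ∃ y ∈ X, ∃ u : ℤ, wz y u w.length = w}

theorem wz_mem_BX {X : Set (Cfg m)} {y : Cfg m} (hy : y ∈ X) (u : ℤ) (n : ℕ) : wz y u n ∈ BX X :=
  ⟨y, hy, u, by rw [wz_length]⟩

/-- all words of a given length -/
def allW (m : ℕ) : ℕ → List (List (Fin m))
  | 0 => [[]]
  | n + 1 => (allW m n).flatMap fun w => (List.finRange m).map fun a => a :: w

theorem mem_allW {n : ℕ} {w : List (Fin m)} : w ∈ allW m n ↔ w.length = n := by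
  induction n generalizing w with
  | zero => simp [allW]
  | succ n ih =>
    simp only [allW, List.mem_flatMap, List.mem_map, List.mem_finRange, true_and]
    constructor
    · rintro ⟨v, hv, a, rfl⟩
      rw [List.length_cons, ih.1 hv]
    · intro h
      match w, h with
      | a :: v, h =>
        exact ⟨v, ih.2 (by simpa using h), a, rfl⟩

def dst (a b : ℕ) : ℕ := (a - b) + (b - a)

theorem dst_eq (a b : ℕ) : ((dst a b : ℕ) : ℤ) = (((a : ℤ) - b).natAbs : ℤ) := by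
  unfold dst
  omega

namespace Str

variable (D : Str m)

/-- windows of the representatives -/
def gz (l : Fin D.n) (a b n : ℕ) : List (Fin m) := wz (D.x l) ((a : ℤ) - b) n

def WW (k A : ℕ) (i : Fin D.n) : List (List (Fin m)) := fac k (D.gz i 0 A (2 * A))

/-- matching a word with a type -/
def Mt (k : ℕ) (w : List (Fin m)) (A N2 : ℕ) (τ : Fin D.n × List (Fin D.n) × Fin D.n)
    (a1 r1 a2 r2 : ℕ) : Prop :=
  k ≤ w.length ∧ w.take k = D.gz τ.1 a1 N2 k ∧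
    w.drop (w.length - k) = D.gz τ.2.2 a2 (N2 + k) k ∧
    (∀ v ∈ fac k w, v ∈ fac k (D.gz τ.1 a1 N2 r1) ∨ v ∈ fac k (D.gz τ.2.2 a2 (N2 + r2) r2) ∨
      ∃ i ∈ τ.2.1, v ∈ D.WW k A i) ∧
    (∀ v ∈ fac k (D.gz τ.1 a1 N2 r1), v ∈ fac k w) ∧
    (∀ v ∈ fac k (D.gz τ.2.2 a2 (N2 + r2) r2), v ∈ fac k w) ∧
    ∀ i ∈ τ.2.1, ∀ v ∈ D.WW k A i, v ∈ fac k w

variable {D}

def rho2 (ρ1 N1 : ℕ) : ℕ := N1 + ρ1 + ρ1

/-- the certificate -/
structure Cert (C : Con D) (TL : List (Fin D.n × List (Fin D.n) × Fin D.n)) (k : ℕ)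
    (w : List (Fin m)) (A ρ1 N1 N2 : ℕ) : Prop where
  c1 : C.K0 + k ≤ ρ1
  c2 : ∀ l, ∀ v ∈ fac k (D.gz l 0 N1 (2 * N1 + k)), v ∈ D.WW k A l
  c3 : ∀ l i, D.down l i → ∀ v ∈ D.WW k A i, v ∈ fac k (D.gz l 0 ρ1 (2 * ρ1))
  c4 : ∀ z ∈ allW m (2 * (N1 + ρ1) + 1), z ∈ BX D.X → ∃ l, ∃ a, a < 2 * N1 + 1 ∧
    (z.drop (N1 - dst a N1)).take (2 * (dst a N1 + ρ1) + 1) =
      D.gz l a (N1 + dst a N1 + ρ1) (2 * (dst a N1 + ρ1) + 1)
  c6 : ∀ z ∈ allW m (2 * N2 + 1), z ∈ BX D.X → ∃ l, ∃ a, a < 2 * N2 + 1 ∧ ∃ r, r < N2 + 1 ∧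
    dst a N2 + rho2 ρ1 N1 ≤ r ∧
    (∀ i, D.Om l i → ∀ v ∈ D.WW k A i, v ∈ fac k (D.gz l a N2 r)) ∧
    (∀ i, D.Al l i → ∀ v ∈ D.WW k A i, v ∈ fac k (D.gz l a (N2 + r) r)) ∧
    (z.drop (N2 - r)).take (2 * r + 1) = D.gz l a (N2 + r) (2 * r + 1)
  c7 : ∀ N, N < 4 * N2 + 1 → ∀ z ∈ allW m N, z ∈ BX D.X → ¬ eqv k z w
  c8 : ∀ τ ∈ TL, ∀ a1, a1 < 2 * N2 + 1 → ∀ r1, r1 < N2 + 1 → ∀ a2, a2 < 2 * N2 + 1 →
    ∀ r2, r2 < N2 + 1 → dst a1 N2 + rho2 ρ1 N1 ≤ r1 → dst a2 N2 + rho2 ρ1 N1 ≤ r2 →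
    ¬ D.Mt k w A N2 τ a1 r1 a2 r2

theorem cov1 {C : Con D} {TL : List (Fin D.n × List (Fin D.n) × Fin D.n)} {k : ℕ}
    {w : List (Fin m)} {A ρ1 N1 N2 : ℕ} (h : Cert C TL k w A ρ1 N1 N2) {y : Cfg m} (hy : y ∈ D.X)
    (u : ℤ) : ∃ l, ∃ t : ℤ, -(N1 : ℤ) ≤ t ∧ t ≤ N1 ∧
      ∀ c : ℤ, -((t.natAbs : ℤ) + ρ1) ≤ c → c ≤ t.natAbs + ρ1 → y (u + c) = D.x l (t + c) := by
  obtain ⟨l, a, h1, h2⟩ := h.c4 (wz y (u - (N1 + ρ1)) (2 * (N1 + ρ1) + 1))
    (mem_allW.2 (wz_length _ _ _)) (wz_mem_BX hy _ _)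
  have hd : dst a N1 ≤ N1 := by unfold dst; omega
  have hd2 := dst_eq a N1
  rw [wz_drop_take (by omega)] at h2
  refine ⟨l, a - N1, by omega, by omega, fun c h3 h4 => ?_⟩
  have h5 := wz_ptw h2 (c + (dst a N1 + ρ1)) (by omega) (by push_cast; omega)
  have e1 : u - (↑N1 + ↑ρ1) + ((N1 - dst a N1 : ℕ) : ℤ) + (c + (↑(dst a N1) + ↑ρ1)) = u + c := by
    omega
  have e2 : (a : ℤ) - ((N1 + dst a N1 + ρ1 : ℕ) : ℤ) + (c + (↑(dst a N1) + ↑ρ1)) =
      a - N1 + c := by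
    push_cast
    ring
  rw [e1, e2] at h5
  exact h5

theorem cov2 {C : Con D} {TL : List (Fin D.n × List (Fin D.n) × Fin D.n)} {k : ℕ}
    {w : List (Fin m)} {A ρ1 N1 N2 : ℕ} (h : Cert C TL k w A ρ1 N1 N2) {y : Cfg m} (hy : y ∈ D.X)
    (u : ℤ) : ∃ l, ∃ a, a < 2 * N2 + 1 ∧ ∃ r, r < N2 + 1 ∧ dst a N2 + rho2 ρ1 N1 ≤ r ∧
      (∀ i, D.Om l i → ∀ v ∈ D.WW k A i, v ∈ fac k (D.gz l a N2 r)) ∧
      (∀ i, D.Al l i → ∀ v ∈ D.WW k A i, v ∈ fac k (D.gz l a (N2 + r) r)) ∧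
      ∀ c : ℤ, -(r : ℤ) ≤ c → c ≤ r → y (u + c) = D.x l (a - N2 + c) := by
  obtain ⟨l, a, h1, r, h2, h3, h4, h5, h6⟩ := h.c6 (wz y (u - N2) (2 * N2 + 1))
    (mem_allW.2 (wz_length _ _ _)) (wz_mem_BX hy _ _)
  refine ⟨l, a, h1, r, h2, h3, h4, h5, fun c h7 h8 => ?_⟩
  rw [wz_drop_take (by omega)] at h6
  have h9 := wz_ptw h6 (c + r) (by omega) (by push_cast; omega)
  have e1 : u - ↑N2 + ((N2 - r : ℕ) : ℤ) + (c + ↑r) = u + c := by omega
  have e2 : (a : ℤ) - ((N2 + r : ℕ) : ℤ) + (c + ↑r) = a - N2 + c := by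
    push_cast
    ring
  rw [e1, e2] at h9
  exact h9

theorem cert_sound {C : Con D} {TL : List (Fin D.n × List (Fin D.n) × Fin D.n)}
    (hTL : ∀ l1 G l2, D.TT C.N0 C.S l1 G l2 → ∃ τ ∈ TL, τ.1 = l1 ∧ τ.2.2 = l2 ∧
      ∀ i, i ∈ τ.2.1 ↔ i ∈ G) {k : ℕ} {w : List (Fin m)} {A ρ1 N1 N2 : ℕ}
    (h : Cert C TL k w A ρ1 N1 N2) {z : List (Fin m)} (hz : z ∈ BX D.X) : ¬ eqv k z w := by
  classical
  intro he
  obtain ⟨y, hy, u, hu⟩ := hz
  obtain ⟨j, t, rfl⟩ := D.hall y hy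
  -- the word in `x j`
  obtain ⟨a, n, hn, hza⟩ : ∃ (a : ℤ) (n : ℕ), z.length = n ∧ z = wz (D.x j) a n := by
    refine ⟨u + t, z.length, rfl, ?_⟩
    rw [← hu, wz_length]
    apply wz_congr
    intro c _ _
    rw [sh_apply]
    congr 1
    ring
  by_cases hshort : n < 4 * N2 + 1
  · exact h.c7 n hshort z (mem_allW.2 hn) ⟨_, hy, u, hu⟩ he
  have hc1 := h.c1
  have hS1 := C.hS1
  have hSK := C.hSK
  obtain ⟨l1, a1, ha1, r1, hr1, hd1, hom1, -, H1⟩ := cov2 h (D.hx j) a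
  obtain ⟨l2, a2, ha2, r2, hr2, hd2, -, hal2, H2⟩ := cov2 h (D.hx j) (a + n)
  have hd1' := dst_eq a1 N2
  have hd2' := dst_eq a2 N2
  unfold rho2 at hd1 hd2
  obtain ⟨t1, ht1⟩ : ∃ t1 : ℤ, t1 = (a1 : ℤ) - N2 := ⟨_, rfl⟩
  obtain ⟨t2, ht2⟩ : ∃ t2 : ℤ, t2 = (a2 : ℤ) - N2 := ⟨_, rfl⟩
  rw [← ht1] at H1 hd1'
  rw [← ht2] at H2 hd2'
  obtain ⟨b, hb⟩ : ∃ b : ℤ, b = a + n := ⟨_, rfl⟩
  rw [← hb] at H2
  obtain ⟨τ1, hτ1⟩ : ∃ τ : ℤ, τ = a - t1 := ⟨_, rfl⟩
  obtain ⟨τ2, hτ2⟩ : ∃ τ : ℤ, τ = b - t2 := ⟨_, rfl⟩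
  -- transfers
  have T1 : ∀ c : ℤ, t1 - r1 ≤ c → c ≤ t1 + r1 → D.x j (τ1 + c) = D.x l1 c := by
    intro c h1 h2
    have := H1 (c - t1) (by omega) (by omega)
    rw [show a + (c - t1) = τ1 + c by omega, show t1 + (c - t1) = c by omega] at this
    exact this
  have T2 : ∀ c : ℤ, t2 - r2 ≤ c → c ≤ t2 + r2 → D.x j (τ2 + c) = D.x l2 c := by
    intro c h1 h2
    have := H2 (c - t2) (by omega) (by omega)
    rw [show b + (c - t2) = τ2 + c by omega, show t2 + (c - t2) = c by omega] at this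
    exact this
  let G : Finset (Fin D.n) := Finset.univ.filter fun i => ∃ u : ℤ, τ1 + C.S ≤ u ∧ u ≤ τ2 - C.S ∧
    D.agr C.S i (D.x j) u
  have hG : ∀ i, i ∈ G ↔ ∃ u : ℤ, τ1 + C.S ≤ u ∧ u ≤ τ2 - C.S ∧ D.agr C.S i (D.x j) u :=
    fun i => by simp [G]
  -- middle positions
  have hmid : ∀ u : ℤ, a + r1 - k - C.S - D.h < u → u < b - r2 + C.S → ∃ l, ∃ t : ℤ,
      -(N1 : ℤ) ≤ t ∧ t ≤ N1 ∧ ∀ c : ℤ, -((t.natAbs : ℤ) + ρ1) ≤ c → c ≤ t.natAbs + ρ1 →
        D.x j (u + c) = D.x l (t + c) := fun u _ _ => cov1 h (D.hx j) u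
  have hTT : D.TT C.N0 C.S l1 G l2 := by
    refine ⟨j, τ1, τ2, by omega, fun c h1 h2 => T1 c (by omega) (by omega),
      fun c h1 h2 => T2 c (by omega) (by omega), fun i u h1 h2 ho => ?_, fun i hi => (hG i).1 hi⟩
    rw [hG]
    by_cases c1 : u + D.h ≤ a + r1
    · have ho' : D.occ i (D.x l1) (u - τ1) := by
        intro c h3 h4
        rw [← ho c h3 h4, ← T1 _ (by omega) (by omega)]
        congr 1
        ring
      obtain ⟨u', h3, h4, h5⟩ := C.hK2 l1 i (C.hN1 l1 i _ (by omega) ho')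
      refine ⟨τ1 + u', by omega, by omega, fun c h6 h7 => ?_⟩
      rw [← h5 c h6 h7, ← T1 _ (by omega) (by omega)]
      congr 1
      ring
    by_cases c2 : b - r2 ≤ u
    · have ho' : D.occ i (D.x l2) (u - τ2) := by
        intro c h3 h4
        rw [← ho c h3 h4, ← T2 _ (by omega) (by omega)]
        congr 1
        ring
      obtain ⟨u', h3, h4, h5⟩ := C.hK3 l2 i (C.hN2 l2 i _ (by omega) ho')
      refine ⟨τ2 + u', by omega, by omega, fun c h6 h7 => ?_⟩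
      rw [← h5 c h6 h7, ← T2 _ (by omega) (by omega)]
      congr 1
      ring
    obtain ⟨l, t, h3, h4, h5⟩ := hmid u (by omega) (by omega)
    have ho' : D.occ i (D.x l) t := by
      intro c h6 h7
      rw [← ho c h6 h7, ← h5 _ (by omega) (by omega)]
    obtain ⟨u', h6, h7, h8⟩ := C.hK1 l i (occ_down ho')
    refine ⟨u - t + u', by omega, by omega, fun c h9 h10 => ?_⟩
    rw [← h8 c h9 h10, show u' + c = t + (u' + c - t) by ring, ← h5 _ (by omega) (by omega)]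
    congr 1
    ring
  obtain ⟨⟨l1', Gl, l2'⟩, hτ, e1, e2, hGl⟩ := hTL l1 G l2 hTT
  simp only at e1 e2 hGl
  subst e1 e2
  have hkz : k ≤ z.length := by omega
  obtain ⟨f1, f2, f3, f4, f5⟩ : k ≤ w.length ∧ w.take k = z.take k ∧
      w.drop (w.length - k) = z.drop (z.length - k) ∧ (∀ v ∈ fac k w, v ∈ fac k z) ∧
      ∀ v ∈ fac k z, v ∈ fac k w := by
    rcases he with rfl | ⟨g1, g2, g3, g4, g5, g6⟩
    · exact ⟨hkz, rfl, rfl, fun _ h => h, fun _ h => h⟩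
    · exact ⟨g2, g3.symm, g4.symm, g6, g5⟩
  have hzf : ∀ v, v ∈ fac k z ↔ ∃ q : ℤ, a ≤ q ∧ q + k ≤ b ∧ v = wz (D.x j) q k := by
    intro v
    rw [hza, mem_fac_wz, hb]
  refine h.c8 _ hτ a1 ha1 r1 hr1 a2 ha2 r2 hr2 (by unfold rho2; omega) (by unfold rho2; omega)
    ⟨f1, ?_, ?_, ?_, ?_, ?_, ?_⟩
  · rw [f2, hza, wz_take (by omega)]
    apply wz_congr
    intro c h1 h2
    rw [← ht1]
    exact H1 c (by omega) (by omega)
  · rw [f3, hn, hza, wz_drop (by omega)]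
    apply wz_congr
    intro c h1 h2
    rw [show a + (n : ℤ) - k + c = b + (c - k) by omega, H2 _ (by omega) (by omega), ht2]
    congr 1
    push_cast
    ring
  · intro v hv
    obtain ⟨q, h1, h2, rfl⟩ := (hzf v).1 (f4 v hv)
    by_cases c1 : q + k ≤ a + r1
    · left
      unfold gz
      rw [mem_fac_wz, ← ht1]
      refine ⟨q - τ1, by omega, by omega, ?_⟩
      apply wz_congr
      intro c h3 h4
      rw [← T1 _ (by omega) (by omega)]
      congr 1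
      ring
    by_cases c2 : b - r2 ≤ q
    · right
      left
      unfold gz
      rw [mem_fac_wz, show ((a2 : ℤ) - ((N2 + r2 : ℕ) : ℤ)) = t2 - r2 by push_cast; omega]
      refine ⟨q - τ2, by omega, by omega, ?_⟩
      apply wz_congr
      intro c h3 h4
      rw [← T2 _ (by omega) (by omega)]
      congr 1
      ring
    · right
      right
      obtain ⟨l, t, h3, h4, h5⟩ := hmid q (by omega) (by omega)
      refine ⟨l, ?_, ?_⟩
      · rw [hGl, hG]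
        refine ⟨q - t, by omega, by omega, fun c h6 h7 => ?_⟩
        rw [show q - t + c = q + (c - t) by ring, h5 _ (by omega) (by omega)]
        congr 1
        ring
      · apply h.c2
        unfold gz
        rw [mem_fac_wz]
        refine ⟨t, by omega, by push_cast; omega, ?_⟩
        apply wz_congr
        intro c h6 h7
        exact h5 c (by omega) (by omega)
  · intro v hv
    apply f5
    rw [hzf]
    unfold gz at hv
    rw [mem_fac_wz, ← ht1] at hv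
    obtain ⟨q, h1, h2, rfl⟩ := hv
    refine ⟨τ1 + q, by omega, by omega, ?_⟩
    apply wz_congr
    intro c h3 h4
    rw [← T1 _ (by omega) (by omega)]
    congr 1
    ring
  · intro v hv
    apply f5
    rw [hzf]
    unfold gz at hv
    rw [mem_fac_wz, show ((a2 : ℤ) - ((N2 + r2 : ℕ) : ℤ)) = t2 - r2 by push_cast; omega] at hv
    obtain ⟨q, h1, h2, rfl⟩ := hv
    refine ⟨τ2 + q, by omega, by omega, ?_⟩
    apply wz_congr
    intro c h3 h4
    rw [← T2 _ (by omega) (by omega)]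
    congr 1
    ring
  · intro i hi v hv
    rw [hGl, hG] at hi
    obtain ⟨u, h1, h2, h3⟩ := hi
    by_cases c1 : u + C.S ≤ a + r1
    · have ho' : D.occ i (D.x l1') (u - τ1) := by
        intro c h3' h4
        rw [← h3 c (by omega) (by omega), ← T1 _ (by omega) (by omega)]
        congr 1
        ring
      have h4 := hom1 i (C.hN1 l1' i _ (by omega) ho') v hv
      apply f5
      rw [hzf]
      unfold gz at h4
      rw [mem_fac_wz, ← ht1] at h4
      obtain ⟨q, h1, h2, rfl⟩ := h4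
      refine ⟨τ1 + q, by omega, by omega, ?_⟩
      apply wz_congr
      intro c h3 h4
      rw [← T1 _ (by omega) (by omega)]
      congr 1
      ring
    by_cases c2 : b - r2 ≤ u - C.S
    · have ho' : D.occ i (D.x l2') (u - τ2) := by
        intro c h3' h4
        rw [← h3 c (by omega) (by omega), ← T2 _ (by omega) (by omega)]
        congr 1
        ring
      have h4 := hal2 i (C.hN2 l2' i _ (by omega) ho') v hv
      apply f5
      rw [hzf]
      unfold gz at h4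
      rw [mem_fac_wz, show ((a2 : ℤ) - ((N2 + r2 : ℕ) : ℤ)) = t2 - r2 by push_cast; omega] at h4
      obtain ⟨q, h1, h2, rfl⟩ := h4
      refine ⟨τ2 + q, by omega, by omega, ?_⟩
      apply wz_congr
      intro c h3 h4
      rw [← T2 _ (by omega) (by omega)]
      congr 1
      ring
    obtain ⟨l, t, h4, h5, h6⟩ := hmid u (by omega) (by omega)
    have ho' : D.occ i (D.x l) t := by
      intro c h7 h8
      rw [← h6 _ (by omega) (by omega)]
      exact h3 c (by omega) (by omega)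
    have h7 := h.c3 l i (occ_down ho') v hv
    apply f5
    rw [hzf]
    unfold gz at h7
    rw [mem_fac_wz] at h7
    obtain ⟨q, h8, h9, rfl⟩ := h7
    push_cast at h8 h9
    refine ⟨u - t + q, by omega, by omega, ?_⟩
    apply wz_congr
    intro c h10 h11
    rw [show q + c = t + (q + c - t) by ring, ← h6 _ (by omega) (by omega)]
    congr 1
    ring

end Str

end Pool.Agent.R626.QM
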